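import Pool.Agent.TH915.PW.Scaled
import Pool.Agent.TH915.PW.Disc

set_option autoImplicit false

/-! Bilinear exponential sums over arbitrary sets. -/

namespace Pool.Agent.TH668.Bil

open Finset Filter
open Pool.Agent.TH915.PW
open Pool.Agent.H469R2.NK (e norm_e e_add conj_e)

/-- distance to the nearest integer -/
noncomputable def dz (x : ℝ) : ℝ := |x - round x|

lemma dz_le (x : ℝ) (m : ℤ) : dz x ≤ |x - m| := round_le x m

lemma geom (n : ℕ) (y : ℝ) (hy : 0 < dz y) : ‖∑ j ∈ range n, e (j * y)‖ ≤ 2 / dz y := by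
  have h1 : dz y ≤ Int.fract y := by
    have := dz_le y ⌊y⌋
    rwa [Int.self_sub_floor, abs_of_nonneg (Int.fract_nonneg y)] at this
  have h2 : Int.fract y ≤ 1 - dz y := by
    have := dz_le y (⌊y⌋ + 1)
    have e1 : y - ((⌊y⌋ + 1 : ℤ) : ℝ) = -(1 - Int.fract y) := by
      have := Int.floor_add_fract y
      push_cast
      linarith
    rw [e1, abs_neg, abs_of_nonneg (by linarith [Int.fract_lt_one y])] at this
    linarith
  have h3 := kernel_small n y (dz y) hy h1 h2
  have h4 : 4 / dz y ^ 2 = (2 / dz y) ^ 2 := by rw [div_pow]; norm_num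
  rw [h4] at h3
  exact (pow_le_pow_iff_left₀ (norm_nonneg _) (by positivity) (by norm_num)).mp h3

lemma geom_triv (n : ℕ) (y : ℝ) : ‖∑ j ∈ range n, e (j * y)‖ ≤ n := by
  refine (norm_sum_le _ _).trans (le_of_eq ?_)
  simp only [norm_e]
  rw [sum_const, card_range, nsmul_eq_mul, mul_one]

/-- the box of a point on the circle -/
noncomputable def idx (δ x : ℝ) : ℕ × Bool := (⌊dz x / δ⌋₊, decide (0 ≤ x - round x))

lemma idx_close (δ x y : ℝ) (hδ : 0 < δ) (h : idx δ x = idx δ y) :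
    |x - y - ((round x - round y : ℤ) : ℝ)| < δ := by
  unfold idx at h
  rw [Prod.mk.injEq] at h
  obtain ⟨h1, h2⟩ := h
  have hx0 : 0 ≤ dz x / δ := by unfold dz; positivity
  have hy0 : 0 ≤ dz y / δ := by unfold dz; positivity
  have hx1 := Nat.floor_le hx0
  have hx2 := Nat.lt_floor_add_one (dz x / δ)
  have hy1 := Nat.floor_le hy0
  have hy2 := Nat.lt_floor_add_one (dz y / δ)
  rw [h1] at hx1 hx2
  have h3 : dz x / δ < dz y / δ + 1 := by linarith
  have h4 : dz y / δ < dz x / δ + 1 := by linarith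
  have h5 : dz x < dz y + δ := by
    have := mul_lt_mul_of_pos_right h3 hδ
    rw [add_mul, div_mul_cancel₀ _ hδ.ne', div_mul_cancel₀ _ hδ.ne'] at this
    linarith
  have h6 : dz y < dz x + δ := by
    have := mul_lt_mul_of_pos_right h4 hδ
    rw [add_mul, div_mul_cancel₀ _ hδ.ne', div_mul_cancel₀ _ hδ.ne'] at this
    linarith
  have e1 : x - y - ((round x - round y : ℤ) : ℝ) = (x - round x) - (y - round y) := by
    push_cast
    ring
  rw [e1, abs_lt]
  unfold dz at h5 h6
  by_cases hs : 0 ≤ x - round x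
  · have hs' : 0 ≤ y - round y := by
      have : decide (0 ≤ y - round y) = true := by rw [← h2]; exact decide_eq_true hs
      exact of_decide_eq_true this
    rw [abs_of_nonneg hs, abs_of_nonneg hs'] at h5 h6
    constructor <;> linarith
  · have hs' : ¬ 0 ≤ y - round y := by
      have : decide (0 ≤ y - round y) = false := by rw [← h2]; exact decide_eq_false hs
      exact of_decide_eq_false this
    rw [abs_of_neg (not_le.mp hs), abs_of_neg (not_le.mp hs')] at h5 h6
    constructor <;> linarith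

/-- weights -/
noncomputable def W (n : ℕ) (δ : ℝ) (j : ℕ) : ℝ := if j = 0 then n else 2 / δ * (j : ℝ)⁻¹

lemma W_sum (n : ℕ) (δ : ℝ) (J : ℕ) (hδ : 0 < δ) :
    ∑ j ∈ range (J + 1), W n δ j ≤ n + 2 / δ * (1 + Real.log J) := by
  rw [sum_range_succ']
  have h1 : ∀ j ∈ range J, W n δ (j + 1) = 2 / δ * (((j + 1 : ℕ) : ℝ)⁻¹) := by
    intro j _
    unfold W
    rw [if_neg (by omega)]
  rw [sum_congr rfl h1, ← mul_sum]
  have h2 : ∑ j ∈ range J, (((j + 1 : ℕ) : ℝ)⁻¹) = (harmonic J : ℝ) := by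
    unfold harmonic
    push_cast
    rfl
  rw [h2]
  have h3 := harmonic_le_one_add_log J
  have h4 : W n δ 0 = n := by unfold W; rw [if_pos rfl]
  rw [h4, add_comm]
  gcongr

lemma block_sum (I : Finset ℕ) (x : ℕ → ℝ) (δ : ℝ) (hδ : 0 < δ)
    (hsep : ∀ d ∈ I, ∀ d' ∈ I, d ≠ d' → ∀ m : ℤ, δ ≤ |x d - x d' - m|) (n : ℕ) :
    ∑ d ∈ I, ‖∑ j ∈ range n, e (j * x d)‖ ≤ 2 * (n + 2 / δ * (1 + Real.log ⌊1 / δ⌋₊)) := by
  classical
  set J : ℕ := ⌊1 / δ⌋₊ with hJ
  have hW0 : ∀ j, 0 ≤ W n δ j := by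
    intro j
    unfold W
    split_ifs
    · positivity
    · positivity
  have hinj : Set.InjOn (fun d => idx δ (x d)) I := by
    intro d hd d' hd' h
    by_contra hne
    have h1 := idx_close δ (x d) (x d') hδ h
    have h2 := hsep d hd d' hd' hne (round (x d) - round (x d'))
    linarith
  have hle : ∀ d ∈ I, ‖∑ j ∈ range n, e (j * x d)‖ ≤ W n δ (idx δ (x d)).1 := by
    intro d _
    unfold W
    split_ifs with h
    · exact geom_triv n (x d)
    · have h1 : 1 ≤ ⌊dz (x d) / δ⌋₊ := Nat.one_le_iff_ne_zero.mpr h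
      have h2 : ((⌊dz (x d) / δ⌋₊ : ℕ) : ℝ) ≤ dz (x d) / δ :=
        Nat.floor_le (by unfold dz; positivity)
      have h3 : (1 : ℝ) ≤ (⌊dz (x d) / δ⌋₊ : ℕ) := by exact_mod_cast h1
      have h4 : 0 < dz (x d) := by
        have : 0 < dz (x d) / δ := by linarith
        have h5 := mul_pos this hδ
        rwa [div_mul_cancel₀ _ hδ.ne'] at h5
      refine (geom n (x d) h4).trans ?_
      have e1 : 2 / dz (x d) = 2 / δ * (dz (x d) / δ)⁻¹ := by field_simp
      rw [e1]
      unfold idx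
      gcongr
  calc ∑ d ∈ I, ‖∑ j ∈ range n, e (j * x d)‖ ≤ ∑ d ∈ I, W n δ (idx δ (x d)).1 := sum_le_sum hle
    _ = ∑ p ∈ I.image (fun d => idx δ (x d)), W n δ p.1 := by
        rw [sum_image hinj]
    _ ≤ ∑ p ∈ range (J + 1) ×ˢ (univ : Finset Bool), W n δ p.1 := by
        apply sum_le_sum_of_subset_of_nonneg
        · intro p hp
          rw [mem_image] at hp
          obtain ⟨d, _, rfl⟩ := hp
          rw [mem_product, mem_range]
          refine ⟨?_, mem_univ _⟩
          unfold idx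
          apply Nat.lt_succ_of_le
          apply Nat.floor_le_floor
          have : dz (x d) ≤ 1 := by
            unfold dz
            have := abs_sub_round (x d)
            linarith
          gcongr
        · intro p _ _
          exact hW0 p.1
    _ = 2 * ∑ j ∈ range (J + 1), W n δ j := by
        rw [sum_product]
        simp only [sum_const, card_univ, Fintype.card_bool, nsmul_eq_mul]
        rw [mul_sum]
        norm_num
    _ ≤ _ := by
        have := W_sum n δ J hδ
        linarith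

lemma full_sum (β : ℝ) (K N n : ℕ) (hK : 1 ≤ K) (δ : ℝ) (hδ : 0 < δ)
    (hsep : ∀ k : ℕ, 1 ≤ k → k < K → ∀ m : ℤ, δ ≤ |β * k - m|) :
    ∑ d ∈ Finset.Icc 1 N, ‖∑ j ∈ range n, e (j * (β * d))‖ ≤
      ((N : ℝ) / K + 1) * (2 * (n + 2 / δ * (1 + Real.log ⌊1 / δ⌋₊))) := by
  classical
  have hmap : ∀ d ∈ Finset.Icc 1 N, d / K ∈ range (N / K + 1) := by
    intro d hd
    rw [Finset.mem_Icc] at hd
    rw [mem_range]
    exact Nat.lt_succ_of_le (Nat.div_le_div_right hd.2)
  rw [← sum_fiberwise_of_maps_to hmap]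
  have h1 : ∀ i ∈ range (N / K + 1),
      ∑ d ∈ (Finset.Icc 1 N).filter (fun d => d / K = i), ‖∑ j ∈ range n, e (j * (β * d))‖ ≤
        2 * (n + 2 / δ * (1 + Real.log ⌊1 / δ⌋₊)) := by
    intro i _
    apply block_sum _ (fun d => β * d) δ hδ
    intro d hd d' hd' hne m
    rw [mem_filter] at hd hd'
    have hd1 := Nat.div_add_mod d K
    have hd2 := Nat.div_add_mod d' K
    rw [hd.2] at hd1
    rw [hd'.2] at hd2
    have hm1 := Nat.mod_lt d (show 0 < K by omega)
    have hm2 := Nat.mod_lt d' (show 0 < K by omega)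
    rcases lt_or_gt_of_ne hne with h | h
    · obtain ⟨k, rfl⟩ := Nat.exists_eq_add_of_lt h
      have h3 := hsep (k + 1) (by omega) (by omega) (-m)
      have e1 : β * (d : ℝ) - β * ((d + k + 1 : ℕ) : ℝ) - m = -(β * ((k + 1 : ℕ) : ℝ) - ((-m : ℤ) : ℝ)) := by
        push_cast
        ring
      rw [e1, abs_neg]
      exact h3
    · obtain ⟨k, rfl⟩ := Nat.exists_eq_add_of_lt h
      have h3 := hsep (k + 1) (by omega) (by omega) m
      have e1 : β * ((d' + k + 1 : ℕ) : ℝ) - β * (d' : ℝ) - m = β * ((k + 1 : ℕ) : ℝ) - m := by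
        push_cast
        ring
      rw [e1]
      exact h3
  refine (sum_le_sum h1).trans ?_
  rw [sum_const, card_range, nsmul_eq_mul]
  have hlog : 0 ≤ Real.log ⌊1 / δ⌋₊ := Real.log_natCast_nonneg _
  apply mul_le_mul_of_nonneg_right _ (by positivity)
  push_cast
  have : ((N / K : ℕ) : ℝ) ≤ (N : ℝ) / K := Nat.cast_div_le
  linarith

end Pool.Agent.TH668.Bil
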