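import Pool.Agent.TH668.Bil.Basic

set_option autoImplicit false

/-! The bilinear inequality. -/

namespace Pool.Agent.TH668.Bil

open Finset Filter
open Pool.Agent.TH915.PW
open Pool.Agent.H469R2.NK (e norm_e e_add conj_e)

/-- sum over the distances from a point -/
lemma dist_sum (G : ℕ → ℝ) (hG : ∀ d, 0 ≤ G d) (N b : ℕ) (hb : b ≤ N) :
    ∑ b' ∈ range (N + 1), (if b' ≤ b then G (b - b') else G (b' - b)) ≤
      2 * ∑ d ∈ range (N + 1), G d := by
  classical
  have h1 : ∀ b' ∈ range (N + 1), (if b' ≤ b then G (b - b') else G (b' - b)) ≤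
      (if b' ≤ b then G (b - b') else 0) + (if b ≤ b' then G (b' - b) else 0) := by
    intro b' _
    split_ifs with h h' h'
    · have := hG (b' - b)
      linarith
    · linarith
    · linarith
    · omega
  refine (sum_le_sum h1).trans ?_
  rw [sum_add_distrib, ← sum_filter, ← sum_filter, two_mul]
  apply add_le_add
  · have hinj : Set.InjOn (fun b' => b - b') ((range (N + 1)).filter fun b' => b' ≤ b) := by
      intro x hx y hy h
      simp only [coe_filter, mem_range, Set.mem_ofPred_eq] at hx hy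
      simp only at h
      omega
    rw [← sum_image hinj]
    apply sum_le_sum_of_subset_of_nonneg
    · intro d hd
      rw [mem_image] at hd
      obtain ⟨b', hb', rfl⟩ := hd
      rw [mem_range]
      omega
    · intro d _ _
      exact hG d
  · have hinj : Set.InjOn (fun b' => b' - b) ((range (N + 1)).filter fun b' => b ≤ b') := by
      intro x hx y hy h
      simp only [coe_filter, mem_range, Set.mem_ofPred_eq] at hx hy
      simp only at h
      omega
    rw [← sum_image hinj]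
    apply sum_le_sum_of_subset_of_nonneg
    · intro d hd
      rw [mem_image] at hd
      obtain ⟨b', hb', rfl⟩ := hd
      rw [mem_filter, mem_range] at hb'
      rw [mem_range]
      omega
    · intro d _ _
      exact hG d

lemma sq_expand2 (n : ℕ) (B : Finset ℕ) (g : ℕ → ℝ) (β : ℝ) :
    ∑ a ∈ range n, ‖∑ b ∈ B, e (g b + β * a * b)‖ ^ 2 ≤
      ∑ b ∈ B, ∑ b' ∈ B, ‖∑ a ∈ range n, e (a * (β * (b - b')))‖ := by
  have h1 : ((∑ a ∈ range n, ‖∑ b ∈ B, e (g b + β * a * b)‖ ^ 2 : ℝ) : ℂ) =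
      ∑ b ∈ B, ∑ b' ∈ B, e (g b - g b') * ∑ a ∈ range n, e (a * (β * (b - b'))) := by
    push_cast
    have h2 : ∀ a : ℕ, ((‖∑ b ∈ B, e (g b + β * a * b)‖ : ℂ)) ^ 2 =
        ∑ b ∈ B, ∑ b' ∈ B, e (g b - g b') * e (a * (β * (b - b'))) := by
      intro a
      rw [← Complex.mul_conj', map_sum, sum_mul_sum]
      refine sum_congr rfl fun b _ => sum_congr rfl fun b' _ => ?_
      rw [conj_e, ← e_add, ← e_add]
      congr 1
      ring
    rw [sum_congr rfl fun a _ => h2 a, sum_comm]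
    refine sum_congr rfl fun b _ => ?_
    rw [sum_comm]
    refine sum_congr rfl fun b' _ => ?_
    rw [mul_sum]
  have h0 : 0 ≤ ∑ a ∈ range n, ‖∑ b ∈ B, e (g b + β * a * b)‖ ^ 2 :=
    sum_nonneg fun a _ => by positivity
  calc ∑ a ∈ range n, ‖∑ b ∈ B, e (g b + β * a * b)‖ ^ 2 =
      ‖((∑ a ∈ range n, ‖∑ b ∈ B, e (g b + β * a * b)‖ ^ 2 : ℝ) : ℂ)‖ := by
        rw [Complex.norm_real, Real.norm_of_nonneg h0]
    _ ≤ _ := by
        rw [h1]
        refine (norm_sum_le _ _).trans (sum_le_sum fun b _ => (norm_sum_le _ _).trans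
          (sum_le_sum fun b' _ => ?_))
        rw [norm_mul, norm_e, one_mul]

lemma bilinear (A B : Finset ℕ) (N : ℕ) (hA : ∀ a ∈ A, a ≤ N) (hB : ∀ b ∈ B, b ≤ N)
    (f g : ℕ → ℝ) (β F : ℝ)
    (hF : ∑ d ∈ Finset.Icc 1 N, ‖∑ j ∈ range (N + 1), e (j * (β * d))‖ ≤ F) :
    ‖∑ a ∈ A, ∑ b ∈ B, e (f a + β * a * b + g b)‖ ^ 2 ≤
      A.card * (B.card * (2 * ((N + 1 : ℕ) + F))) := by
  classical
  set T : ℕ → ℝ := fun a => ‖∑ b ∈ B, e (g b + β * a * b)‖ with hT
  have h1 : ‖∑ a ∈ A, ∑ b ∈ B, e (f a + β * a * b + g b)‖ ≤ ∑ a ∈ A, T a := by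
    refine (norm_sum_le _ _).trans (le_of_eq (sum_congr rfl fun a _ => ?_))
    have e1 : ∑ b ∈ B, e (f a + β * a * b + g b) = e (f a) * ∑ b ∈ B, e (g b + β * a * b) := by
      rw [mul_sum]
      refine sum_congr rfl fun b _ => ?_
      rw [← e_add]
      congr 1
      ring
    rw [e1, norm_mul, norm_e, one_mul]
  have h2 : (∑ a ∈ A, T a) ^ 2 ≤ A.card * ∑ a ∈ A, T a ^ 2 := sq_sum_le_card_mul_sum_sq
  have h3 : ∑ a ∈ A, T a ^ 2 ≤ ∑ a ∈ range (N + 1), T a ^ 2 := by
    apply sum_le_sum_of_subset_of_nonneg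
    · intro a ha
      rw [mem_range]
      have := hA a ha
      omega
    · intro a _ _
      positivity
  have h4 := sq_expand2 (N + 1) B g β
  set G : ℕ → ℝ := fun d => ‖∑ j ∈ range (N + 1), e (j * (β * d))‖ with hG
  have hG0 : ∀ d, 0 ≤ G d := fun d => norm_nonneg _
  have h5 : ∀ b ∈ B, ∑ b' ∈ B, ‖∑ a ∈ range (N + 1), e (a * (β * ((b : ℝ) - b')))‖ ≤
      2 * ((N + 1 : ℕ) + F) := by
    intro b hb
    have hD : ∀ b' : ℕ, ‖∑ a ∈ range (N + 1), e (a * (β * ((b : ℝ) - b')))‖ =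
        (if b' ≤ b then G (b - b') else G (b' - b)) := by
      intro b'
      split_ifs with h
      · simp only [hG]
        rw [Nat.cast_sub h]
      · simp only [hG]
        rw [Nat.cast_sub (by omega), ← Complex.norm_conj, map_sum]
        congr 1
        refine sum_congr rfl fun a _ => ?_
        rw [conj_e]
        congr 1
        ring
    calc ∑ b' ∈ B, ‖∑ a ∈ range (N + 1), e (a * (β * ((b : ℝ) - b')))‖ ≤
        ∑ b' ∈ range (N + 1), ‖∑ a ∈ range (N + 1), e (a * (β * ((b : ℝ) - b')))‖ := by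
          apply sum_le_sum_of_subset_of_nonneg
          · intro b' hb'
            rw [mem_range]
            have := hB b' hb'
            omega
          · intro b' _ _
            exact norm_nonneg _
      _ = ∑ b' ∈ range (N + 1), (if b' ≤ b then G (b - b') else G (b' - b)) :=
          sum_congr rfl fun b' _ => hD b'
      _ ≤ 2 * ∑ d ∈ range (N + 1), G d := dist_sum G hG0 N b (hB b hb)
      _ ≤ 2 * ((N + 1 : ℕ) + F) := by
          have e1 : ∑ d ∈ range (N + 1), G d = G 0 + ∑ d ∈ Finset.Icc 1 N, G d := by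
            have : range (N + 1) = insert 0 (Finset.Icc 1 N) := by
              ext d
              rw [mem_range, mem_insert, Finset.mem_Icc]
              omega
            rw [this, sum_insert (by rw [Finset.mem_Icc]; omega)]
          have e2 : G 0 ≤ (N + 1 : ℕ) := geom_triv (N + 1) _
          rw [e1]
          linarith
  have h6 : ∑ b ∈ B, ∑ b' ∈ B, ‖∑ a ∈ range (N + 1), e (a * (β * ((b : ℝ) - b')))‖ ≤
      B.card * (2 * ((N + 1 : ℕ) + F)) := by
    refine (sum_le_sum h5).trans ?_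
    rw [sum_const, nsmul_eq_mul]
  calc ‖∑ a ∈ A, ∑ b ∈ B, e (f a + β * a * b + g b)‖ ^ 2 ≤ (∑ a ∈ A, T a) ^ 2 :=
        pow_le_pow_left₀ (norm_nonneg _) h1 2
    _ ≤ A.card * ∑ a ∈ A, T a ^ 2 := h2
    _ ≤ A.card * ∑ a ∈ range (N + 1), T a ^ 2 := by gcongr
    _ ≤ A.card * (B.card * (2 * ((N + 1 : ℕ) + F))) := by
        gcongr
        exact h4.trans h6

end Pool.Agent.TH668.Bil
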