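import Pool.Agent.TH668.Bil.Main

set_option autoImplicit false

/-! Dot products of lattice points. -/

namespace Pool.Agent.TH668.Bil

open Finset Filter
open Pool.Agent.TH915.PW
open Pool.Agent.H469R2.NK (e norm_e e_add conj_e)
open Pool.Agent.W147.PS (ff ev_pow)

lemma e_sum {ι : Type} (s : Finset ι) (f : ι → ℝ) : e (∑ i ∈ s, f i) = ∏ i ∈ s, e (f i) := by
  classical
  induction s using Finset.induction_on with
  | empty =>
    unfold e
    simp
  | insert i s hi ih => rw [sum_insert hi, prod_insert hi, e_add, ih]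

lemma row (N x : ℕ) (hx : x ≤ N) (β F : ℝ)
    (hF : ∑ d ∈ Finset.Icc 1 N, ‖∑ j ∈ range (N + 1), e (j * (β * d))‖ ≤ F) :
    ∑ y ∈ range (N + 1), ‖∑ j ∈ range (N + 1), e (j * (β * ((x : ℝ) - y)))‖ ≤
      2 * ((N + 1 : ℕ) + F) := by
  set G : ℕ → ℝ := fun d => ‖∑ j ∈ range (N + 1), e (j * (β * d))‖ with hG
  have hG0 : ∀ d, 0 ≤ G d := fun d => norm_nonneg _
  have hD : ∀ b' : ℕ, ‖∑ a ∈ range (N + 1), e (a * (β * ((x : ℝ) - b')))‖ =
      (if b' ≤ x then G (x - b') else G (b' - x)) := by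
    intro b'
    split_ifs with h
    · simp only [hG]
      rw [Nat.cast_sub h]
    · simp only [hG]
      rw [Nat.cast_sub (by omega), ← Complex.norm_conj, map_sum]
      congr 1
      refine sum_congr rfl fun a _ => ?_
      rw [conj_e]
      congr 1
      ring
  calc _ = ∑ b' ∈ range (N + 1), (if b' ≤ x then G (x - b') else G (b' - x)) :=
        sum_congr rfl fun b' _ => hD b'
    _ ≤ 2 * ∑ d ∈ range (N + 1), G d := dist_sum G hG0 N x hx
    _ ≤ 2 * ((N + 1 : ℕ) + F) := by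
        have e1 : ∑ d ∈ range (N + 1), G d = G 0 + ∑ d ∈ Finset.Icc 1 N, G d := by
          have : range (N + 1) = insert 0 (Finset.Icc 1 N) := by
            ext d
            rw [mem_range, mem_insert, Finset.mem_Icc]
            omega
          rw [this, sum_insert (by rw [Finset.mem_Icc]; omega)]
        have e2 : G 0 ≤ (N + 1 : ℕ) := geom_triv (N + 1) _
        rw [e1]
        linarith

/-- general bilinear inequality -/
lemma bil_types {X Y : Type} (I A : Finset X) (B : Finset Y) (hAI : A ⊆ I) (f : X → ℝ) (g : Y → ℝ)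
    (F : X → Y → ℝ) :
    ‖∑ a ∈ A, ∑ b ∈ B, e (f a + F a b + g b)‖ ^ 2 ≤
      A.card * ∑ b ∈ B, ∑ b' ∈ B, ‖∑ a ∈ I, e (F a b - F a b')‖ := by
  set T : X → ℝ := fun a => ‖∑ b ∈ B, e (g b + F a b)‖ with hT
  have h1 : ‖∑ a ∈ A, ∑ b ∈ B, e (f a + F a b + g b)‖ ≤ ∑ a ∈ A, T a := by
    refine (norm_sum_le _ _).trans (le_of_eq (sum_congr rfl fun a _ => ?_))
    have e1 : ∑ b ∈ B, e (f a + F a b + g b) = e (f a) * ∑ b ∈ B, e (g b + F a b) := by
      rw [mul_sum]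
      refine sum_congr rfl fun b _ => ?_
      rw [← e_add]
      congr 1
      ring
    rw [e1, norm_mul, norm_e, one_mul]
  have h2 : (∑ a ∈ A, T a) ^ 2 ≤ A.card * ∑ a ∈ A, T a ^ 2 := sq_sum_le_card_mul_sum_sq
  have h3 : ∑ a ∈ A, T a ^ 2 ≤ ∑ a ∈ I, T a ^ 2 :=
    sum_le_sum_of_subset_of_nonneg hAI fun a _ _ => by positivity
  have h4 : ∑ a ∈ I, T a ^ 2 ≤ ∑ b ∈ B, ∑ b' ∈ B, ‖∑ a ∈ I, e (F a b - F a b')‖ := by
    have h5 : ((∑ a ∈ I, T a ^ 2 : ℝ) : ℂ) =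
        ∑ b ∈ B, ∑ b' ∈ B, e (g b - g b') * ∑ a ∈ I, e (F a b - F a b') := by
      push_cast
      have h6 : ∀ a : X, (T a : ℂ) ^ 2 =
          ∑ b ∈ B, ∑ b' ∈ B, e (g b - g b') * e (F a b - F a b') := by
        intro a
        simp only [hT]
        rw [← Complex.mul_conj', map_sum, sum_mul_sum]
        refine sum_congr rfl fun b _ => sum_congr rfl fun b' _ => ?_
        rw [conj_e, ← e_add, ← e_add]
        congr 1
        ring
      rw [sum_congr rfl fun a _ => h6 a, sum_comm]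
      refine sum_congr rfl fun b _ => ?_
      rw [sum_comm]
      refine sum_congr rfl fun b' _ => ?_
      rw [mul_sum]
    have h0 : 0 ≤ ∑ a ∈ I, T a ^ 2 := sum_nonneg fun a _ => by positivity
    calc ∑ a ∈ I, T a ^ 2 = ‖((∑ a ∈ I, T a ^ 2 : ℝ) : ℂ)‖ := by
          rw [Complex.norm_real, Real.norm_of_nonneg h0]
      _ ≤ _ := by
          rw [h5]
          refine (norm_sum_le _ _).trans (sum_le_sum fun b _ => (norm_sum_le _ _).trans
            (sum_le_sum fun b' _ => ?_))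
          rw [norm_mul, norm_e, one_mul]
  calc ‖∑ a ∈ A, ∑ b ∈ B, e (f a + F a b + g b)‖ ^ 2 ≤ (∑ a ∈ A, T a) ^ 2 :=
        pow_le_pow_left₀ (norm_nonneg _) h1 2
    _ ≤ A.card * ∑ a ∈ A, T a ^ 2 := h2
    _ ≤ _ := by
        gcongr
        exact h3.trans h4

/-- the box -/
def bx (d N : ℕ) : Finset (Fin d → ℕ) := Fintype.piFinset fun _ => range (N + 1)

lemma box_sum (d N : ℕ) (β F : ℝ)
    (hF : ∑ d ∈ Finset.Icc 1 N, ‖∑ j ∈ range (N + 1), e (j * (β * d))‖ ≤ F)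
    (B : Finset (Fin d → ℕ)) (hB : ∀ b ∈ B, ∀ i, b i ≤ N) :
    ∑ b ∈ B, ∑ b' ∈ B, ‖∑ a ∈ bx d N, e (β * (∑ i, (a i : ℝ) * b i) -
      β * (∑ i, (a i : ℝ) * b' i))‖ ≤ B.card * (2 * ((N + 1 : ℕ) + F)) ^ d := by
  have h1 : ∀ b b' : Fin d → ℕ, ‖∑ a ∈ bx d N, e (β * (∑ i, (a i : ℝ) * b i) -
      β * (∑ i, (a i : ℝ) * b' i))‖ =
      ∏ i, ‖∑ j ∈ range (N + 1), e (j * (β * ((b i : ℝ) - b' i)))‖ := by
    intro b b'
    rw [← norm_prod]
    congr 1
    rw [prod_univ_sum]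
    unfold bx
    refine sum_congr rfl fun a _ => ?_
    rw [← e_sum]
    congr 1
    rw [mul_sum, mul_sum, ← sum_sub_distrib]
    refine sum_congr rfl fun i _ => ?_
    ring
  have hBI : B ⊆ bx d N := by
    intro b hb
    unfold bx
    rw [Fintype.mem_piFinset]
    intro i
    rw [mem_range]
    have := hB b hb i
    omega
  have h2 : ∀ b ∈ B, ∑ b' ∈ B, ‖∑ a ∈ bx d N, e (β * (∑ i, (a i : ℝ) * b i) -
      β * (∑ i, (a i : ℝ) * b' i))‖ ≤ (2 * ((N + 1 : ℕ) + F)) ^ d := by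
    intro b hb
    simp_rw [h1]
    calc ∑ b' ∈ B, ∏ i, ‖∑ j ∈ range (N + 1), e (j * (β * ((b i : ℝ) - b' i)))‖ ≤
        ∑ b' ∈ bx d N, ∏ i, ‖∑ j ∈ range (N + 1), e (j * (β * ((b i : ℝ) - b' i)))‖ :=
          sum_le_sum_of_subset_of_nonneg hBI fun b' _ _ => prod_nonneg fun i _ => norm_nonneg _
      _ = ∏ i, ∑ y ∈ range (N + 1), ‖∑ j ∈ range (N + 1), e (j * (β * ((b i : ℝ) - y)))‖ := by
          rw [prod_univ_sum]
          rfl
      _ ≤ ∏ _i : Fin d, (2 * ((N + 1 : ℕ) + F)) :=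
          prod_le_prod (fun i _ => sum_nonneg fun y _ => norm_nonneg _)
            (fun i _ => row N (b i) (hB b hb i) β F hF)
      _ = _ := by
          rw [prod_const, card_univ, Fintype.card_fin]
  refine (sum_le_sum h2).trans ?_
  rw [sum_const, nsmul_eq_mul]

set_option maxHeartbeats 4000000 in
theorem dots (d : ℕ) (μ ε : ℝ) (hμ : 1 ≤ μ) (hε : 0 < ε) :
    ∃ κ : ℝ, 0 < κ ∧ ∀ c : ℝ, 0 < c → ∃ N₀ : ℕ, ∀ N : ℕ, N₀ ≤ N → ∀ α : ℝ,
      (∀ q : ℕ, 1 ≤ q → ∀ p : ℤ, c * (q : ℝ) ^ (-μ) ≤ |(q : ℝ) * α - p|) →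
      ∀ A B : Finset (Fin d → ℕ), (∀ a ∈ A, ∀ i, a i ≤ N) → (∀ b ∈ B, ∀ i, b i ≤ N) →
      (N : ℝ) ^ (d * (2 - 1 / μ) + ε) ≤ A.card * B.card →
      ∀ f g : (Fin d → ℕ) → ℝ,
      (∀ a ∈ A, ∀ b ∈ B, (N : ℝ) ^ ε ≤ f a + α * (∑ i, (a i : ℝ) * b i) + g b) →
      ∃ a ∈ A, ∃ b ∈ B, ∀ q : ℕ, q.Prime →
        κ * ff N < |(q : ℝ) - (f a + α * (∑ i, (a i : ℝ) * b i) + g b)| := by
  have hμ0 : 0 < μ := by linarith
  have hμi : 0 < 1 / μ := by positivity
  have hμ1 : 1 / μ ≤ 1 := by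
    rw [div_le_one hμ0]
    exact hμ
  have hd0 : (0 : ℝ) ≤ d := Nat.cast_nonneg d
  set η : ℝ := min ε 1 / (d * (4 * μ + 3) + 13) with hη
  have hmin : 0 < min ε 1 := lt_min hε one_pos
  have hη0 : 0 < η := by positivity
  have hηm : (d * (4 * μ + 3) + 13) * η = min ε 1 := by
    rw [hη]
    field_simp
  have hηε : (d * (4 * μ + 3) + 13) * η ≤ ε := by rw [hηm]; exact min_le_left _ _
  have hη1 : (d * (4 * μ + 3) + 13) * η ≤ 1 := by rw [hηm]; exact min_le_right _ _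
  have hdη : 0 ≤ d * (4 * μ + 3) * η := by positivity
  have hηle : η ≤ ε := by nlinarith
  have hηle1 : η ≤ 1 := by nlinarith
  obtain ⟨κ, hκ, hcrit⟩ := crit_scaled η hη0 hηle1
  refine ⟨κ, hκ, fun c hc => ?_⟩
  have hlim : ∀ s : ℝ, 0 < s → Tendsto (fun N : ℕ => (N : ℝ) ^ s) atTop atTop := fun s hs =>
    (tendsto_rpow_atTop hs).comp tendsto_natCast_atTop_atTop
  apply eventually_atTop.mp
  filter_upwards [tendsto_natCast_atTop_atTop (R := ℝ) |>.eventually hcrit,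
    F_bound μ η c hμ hη0 hc, eventually_ge_atTop 1, (hlim η hη0).eventually_ge_atTop (6 ^ d)]
    with N hcr hF hN1 hN6
  intro α hα A B hA hB hAB f g hpos
  have hNr : (1 : ℝ) ≤ N := by exact_mod_cast hN1
  have hN0 : (0 : ℝ) < N := by linarith
  have hABpos : (0 : ℝ) < A.card * B.card := lt_of_lt_of_le (by positivity) hAB
  have hA0 : A.Nonempty := by
    rw [← card_pos]
    rcases Nat.eq_zero_or_pos A.card with h | h
    · rw [h] at hABpos
      simp at hABpos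
    · exact h
  have hB0 : B.Nonempty := by
    rw [← card_pos]
    rcases Nat.eq_zero_or_pos B.card with h | h
    · rw [h] at hABpos
      simp at hABpos
    · exact h
  have hAI : A ⊆ bx d N := by
    intro b hb
    unfold bx
    rw [Fintype.mem_piFinset]
    intro i
    rw [mem_range]
    have := hA b hb i
    omega
  obtain ⟨⟨a, b⟩, hab, hq⟩ := hcr ((Fin d → ℕ) × (Fin d → ℕ)) (A ×ˢ B)
    (fun i => f i.1 + α * (∑ j, (i.1 j : ℝ) * i.2 j) + g i.2)
    (hA0.product hB0) (by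
      rintro ⟨a, b⟩ hab
      rw [mem_product] at hab
      exact (Real.rpow_le_rpow_of_exponent_le hNr hηle).trans (hpos a hab.1 b hab.2)) (by
      intro q h hq hqN hh hhN
      have e1 : ∑ i ∈ A ×ˢ B, e ((h : ℝ) / q * (f i.1 + α * (∑ j, (i.1 j : ℝ) * i.2 j) + g i.2)) =
          ∑ a ∈ A, ∑ b ∈ B, e ((h : ℝ) / q * f a + ((h : ℝ) / q * α) * (∑ j, (a j : ℝ) * b j) +
            (h : ℝ) / q * g b) := by
        rw [sum_product]
        refine sum_congr rfl fun a _ => sum_congr rfl fun b _ => ?_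
        congr 1
        ring
      rw [e1]
      have hbil := bil_types (bx d N) A B hAI (fun a => (h : ℝ) / q * f a)
        (fun b => (h : ℝ) / q * g b)
        (fun a b => ((h : ℝ) / q * α) * (∑ j, (a j : ℝ) * b j))
      have hbox := box_sum d N ((h : ℝ) / q * α) _ (hF α hα q h hq hqN hh hhN) B hB
      have hcard : (((A ×ˢ B).card : ℕ) : ℝ) = A.card * B.card := by
        rw [card_product]
        push_cast
        rfl
      rw [hcard]
      set P : ℝ := (A.card : ℝ) * B.card with hP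
      set E : ℝ := 2 - 1 / μ + (4 * μ + 3) * η with hE
      have hE1 : 1 ≤ E := by
        have : 0 ≤ (4 * μ + 3) * η := by positivity
        linarith
      have e2 : 2 * (((N + 1 : ℕ) : ℝ) + (N : ℝ) ^ E) ≤ 6 * (N : ℝ) ^ E := by
        push_cast
        have : (N : ℝ) ≤ (N : ℝ) ^ E := by
          calc (N : ℝ) = (N : ℝ) ^ (1 : ℝ) := (Real.rpow_one _).symm
            _ ≤ _ := Real.rpow_le_rpow_of_exponent_le hNr hE1
        linarith
      have h2 : ‖∑ a ∈ A, ∑ b ∈ B, e ((h : ℝ) / q * f a + ((h : ℝ) / q * α) *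
          (∑ j, (a j : ℝ) * b j) + (h : ℝ) / q * g b)‖ ^ 2 ≤ (P * (N : ℝ) ^ (-(4 * η))) ^ 2 := by
        calc _ ≤ A.card * (B.card * (2 * (((N + 1 : ℕ) : ℝ) + (N : ℝ) ^ E)) ^ d) := by
              refine hbil.trans ?_
              gcongr
          _ ≤ A.card * (B.card * (6 * (N : ℝ) ^ E) ^ d) := by gcongr
          _ = P * (6 ^ d * (N : ℝ) ^ (E * d)) := by
              rw [hP, mul_pow, Real.rpow_mul hN0.le, Real.rpow_natCast]
              ring
          _ ≤ P * ((N : ℝ) ^ η * (N : ℝ) ^ (E * d)) := by gcongr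
          _ ≤ P * (P * (N : ℝ) ^ (-(8 * η))) := by
              apply mul_le_mul_of_nonneg_left _ hABpos.le
              calc (N : ℝ) ^ η * (N : ℝ) ^ (E * d) =
                  (N : ℝ) ^ (d * (2 - 1 / μ) + (d * (4 * μ + 3) + 9) * η) * (N : ℝ) ^ (-(8 * η)) := by
                    rw [← Real.rpow_add hN0, ← Real.rpow_add hN0]
                    congr 1
                    rw [hE]
                    ring
                _ ≤ (N : ℝ) ^ (d * (2 - 1 / μ) + ε) * (N : ℝ) ^ (-(8 * η)) := by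
                    apply mul_le_mul_of_nonneg_right _ (by positivity)
                    apply Real.rpow_le_rpow_of_exponent_le hNr
                    nlinarith
                _ ≤ P * (N : ℝ) ^ (-(8 * η)) := by gcongr
          _ = (P * (N : ℝ) ^ (-(4 * η))) ^ 2 := by
              rw [mul_pow, ← Real.rpow_natCast ((N : ℝ) ^ (-(4 * η))), ← Real.rpow_mul hN0.le]
              rw [show -(4 * η) * ((2 : ℕ) : ℝ) = -(8 * η) by push_cast; ring]
              ring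
      exact (pow_le_pow_iff_left₀ (norm_nonneg _) (by positivity) (by norm_num)).mp h2)
  rw [mem_product] at hab
  exact ⟨a, hab.1, b, hab.2, hq⟩

/-- distances between the points of two sets -/
theorem distances (d : ℕ) (μ ε : ℝ) (hμ : 1 ≤ μ) (hε : 0 < ε) :
    ∃ κ : ℝ, 0 < κ ∧ ∀ c : ℝ, 0 < c → ∃ N₀ : ℕ, ∀ N : ℕ, N₀ ≤ N → ∀ α : ℝ,
      (∀ q : ℕ, 1 ≤ q → ∀ p : ℤ, c * (q : ℝ) ^ (-μ) ≤ |(q : ℝ) * α - p|) →
      ∀ A B : Finset (Fin d → ℕ), (∀ a ∈ A, ∀ i, a i ≤ N) → (∀ b ∈ B, ∀ i, b i ≤ N) →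
      (N : ℝ) ^ (d * (2 - 1 / μ) + ε) ≤ A.card * B.card →
      (∀ a ∈ A, ∀ b ∈ B, (N : ℝ) ^ ε ≤ α * ∑ i, ((a i : ℝ) - b i) ^ 2) →
      ∃ a ∈ A, ∃ b ∈ B, ∀ q : ℕ, q.Prime →
        κ * ff N < |(q : ℝ) - α * ∑ i, ((a i : ℝ) - b i) ^ 2| := by
  obtain ⟨κ, hκ, h⟩ := dots d μ ε hμ hε
  refine ⟨κ, hκ, fun c hc => ?_⟩
  obtain ⟨N₀, hN₀⟩ := h (c * 2 ^ (-μ)) (by positivity)
  refine ⟨N₀, fun N hN α hα A B hA hB hAB hpos => ?_⟩
  have hid : ∀ a b : Fin d → ℕ, α * ∑ i, ((a i : ℝ) - b i) ^ 2 =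
      α * (∑ i, (a i : ℝ) ^ 2) + (-2 * α) * (∑ i, (a i : ℝ) * b i) + α * (∑ i, (b i : ℝ) ^ 2) := by
    intro a b
    rw [mul_sum, mul_sum, mul_sum, mul_sum, ← sum_add_distrib, ← sum_add_distrib]
    refine sum_congr rfl fun i _ => ?_
    ring
  simp_rw [hid] at hpos ⊢
  exact hN₀ N hN (-2 * α) (by
    intro q hq p
    have h1 := hα (2 * q) (by omega) (-p)
    have e1 : |((2 * q : ℕ) : ℝ) * α - ((-p : ℤ) : ℝ)| = |(q : ℝ) * (-2 * α) - p| := by
      rw [← abs_neg]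
      congr 1
      push_cast
      ring
    rw [e1] at h1
    refine le_trans (le_of_eq ?_) h1
    push_cast
    rw [Real.mul_rpow (by norm_num) (Nat.cast_nonneg q)]
    ring) A B hA hB hAB (fun a => α * ∑ i, (a i : ℝ) ^ 2) (fun b => α * ∑ i, (b i : ℝ) ^ 2) hpos

end Pool.Agent.TH668.Bil
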