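import Pool.Agent.TH668.Bil.Bilin

set_option autoImplicit false

/-! Values `f a + α a b + g b` on arbitrary sets meet record gaps. -/

namespace Pool.Agent.TH668.Bil

open Finset Filter
open Pool.Agent.TH915.PW
open Pool.Agent.H469R2.NK (e norm_e e_add conj_e)
open Pool.Agent.W147.PS (ff ev_pow)

/-- bound for the sum of geometric sums -/
lemma F_bound (μ η c : ℝ) (hμ : 1 ≤ μ) (hη : 0 < η) (hc : 0 < c) :
    ∀ᶠ N : ℕ in atTop, ∀ α : ℝ,
      (∀ q : ℕ, 1 ≤ q → ∀ p : ℤ, c * (q : ℝ) ^ (-μ) ≤ |(q : ℝ) * α - p|) →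
      ∀ q h : ℕ, 1 ≤ q → (q : ℝ) ≤ (N : ℝ) ^ η → 1 ≤ h → (h : ℝ) ≤ (N : ℝ) ^ (4 * η) →
      ∑ d ∈ Finset.Icc 1 N, ‖∑ j ∈ range (N + 1), e (j * ((h : ℝ) / q * α * d))‖ ≤
        (N : ℝ) ^ (2 - 1 / μ + (4 * μ + 3) * η) := by
  have hμ0 : 0 < μ := by linarith
  set ν : ℝ := 1 + η + 4 * η * μ with hν
  have hν0 : 0 < ν := by positivity
  have hμi : 0 < 1 / μ := by positivity
  have hμ1 : 1 / μ ≤ 1 := by
    rw [div_le_one hμ0]
    exact hμ
  -- logarithm
  have hlog : ∀ᶠ N : ℝ in atTop, 1 + Real.log (1 / (c * N ^ (-ν))) ≤ N ^ η := by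
    have h1 : Tendsto (fun N : ℝ => Real.log N / N ^ η) atTop (nhds 0) :=
      (isLittleO_log_rpow_atTop hη).tendsto_div_nhds_zero
    have h2 : ∀ᶠ N : ℝ in atTop, Real.log N / N ^ η < 1 / (4 * ν) :=
      h1.eventually (gt_mem_nhds (by positivity))
    filter_upwards [h2, eventually_ge_atTop (1 : ℝ),
      (tendsto_rpow_atTop hη).eventually_ge_atTop (2 * (1 + Real.log (1 / c)))] with N hN hN1 hN3
    have hN0 : 0 < N := by linarith
    have hNη : 0 < N ^ η := by positivity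
    rw [div_lt_iff₀ hNη] at hN
    have e1 : Real.log (1 / (c * N ^ (-ν))) = Real.log (1 / c) + ν * Real.log N := by
      rw [one_div, Real.log_inv, Real.log_mul hc.ne' (by positivity), Real.log_rpow hN0, one_div,
        Real.log_inv]
      ring
    rw [e1]
    have e2 : ν * Real.log N ≤ N ^ η / 4 := by
      have := mul_lt_mul_of_pos_left hN hν0
      have e3 : ν * (1 / (4 * ν) * N ^ η) = N ^ η / 4 := by field_simp
      linarith
    linarith
  have hlogN := tendsto_natCast_atTop_atTop (R := ℝ) |>.eventually hlog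
  have hlim : ∀ s : ℝ, 0 < s → Tendsto (fun N : ℕ => (N : ℝ) ^ s) atTop atTop := fun s hs =>
    (tendsto_rpow_atTop hs).comp tendsto_natCast_atTop_atTop
  filter_upwards [hlogN, eventually_ge_atTop 1,
    (hlim η hη).eventually_ge_atTop (3 * (2 * (2 + 2 / c))),
    (hlim (1 / μ) hμi).eventually_ge_atTop 2] with N hlg hN1 hNη hN2
  intro α hα q h hq hqN hh hhN
  have hNr : (1 : ℝ) ≤ N := by exact_mod_cast hN1
  have hN0 : (0 : ℝ) < N := by linarith
  set δ : ℝ := c * (N : ℝ) ^ (-ν) with hδ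
  have hδ0 : 0 < δ := by positivity
  set K : ℕ := ⌊(N : ℝ) ^ (1 / μ)⌋₊ with hK
  have hKup : (K : ℝ) ≤ (N : ℝ) ^ (1 / μ) := Nat.floor_le (by positivity)
  have hKlow : (N : ℝ) ^ (1 / μ) / 2 ≤ K := by
    have := Nat.lt_floor_add_one ((N : ℝ) ^ (1 / μ))
    linarith
  have hK0 : (0 : ℝ) < K := by linarith
  have hK1 : 1 ≤ K := by exact_mod_cast hK0
  have hq0 : (0 : ℝ) < q := by exact_mod_cast hq
  have hh0 : (0 : ℝ) < h := by exact_mod_cast hh
  have hsep : ∀ k : ℕ, 1 ≤ k → k < K → ∀ m : ℤ, δ ≤ |(h : ℝ) / q * α * k - m| := by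
    intro k hk1 hkK m
    have hk0 : (0 : ℝ) < k := by exact_mod_cast hk1
    have h1 := hα (h * k) (Nat.one_le_iff_ne_zero.mpr (by positivity)) (q * m)
    have e1 : |(h : ℝ) / q * α * k - m| = |((h * k : ℕ) : ℝ) * α - ((q * m : ℤ) : ℝ)| / q := by
      rw [eq_div_iff hq0.ne', ← abs_of_pos hq0, ← abs_mul, abs_of_pos hq0]
      congr 1
      push_cast
      field_simp
    rw [e1, le_div_iff₀ hq0]
    refine le_trans ?_ h1
    have hkN : (k : ℝ) ≤ (N : ℝ) ^ (1 / μ) := by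
      have : (k : ℝ) ≤ K := by exact_mod_cast hkK.le
      linarith
    have h2 : ((h * k : ℕ) : ℝ) ≤ (N : ℝ) ^ (4 * η + 1 / μ) := by
      push_cast
      rw [Real.rpow_add hN0]
      gcongr
    have h3 : (N : ℝ) ^ (-(4 * η * μ + 1)) ≤ ((h * k : ℕ) : ℝ) ^ (-μ) := by
      calc (N : ℝ) ^ (-(4 * η * μ + 1)) = ((N : ℝ) ^ (4 * η + 1 / μ)) ^ (-μ) := by
            rw [← Real.rpow_mul hN0.le]
            congr 1
            field_simp
        _ ≤ _ := by
            apply Real.rpow_le_rpow_of_nonpos _ h2 (by linarith)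
            push_cast
            positivity
    calc δ * q ≤ c * (N : ℝ) ^ (-ν) * (N : ℝ) ^ η := by rw [hδ]; gcongr
      _ = c * (N : ℝ) ^ (-(4 * η * μ + 1)) := by
          rw [mul_assoc, ← Real.rpow_add hN0]
          congr 2
          rw [hν]
          ring
      _ ≤ _ := by gcongr
  have hfull := full_sum ((h : ℝ) / q * α) K N (N + 1) hK1 δ hδ0 hsep
  refine hfull.trans ?_
  have h1 : (N : ℝ) / K + 1 ≤ 3 * (N : ℝ) ^ (1 - 1 / μ) := by
    have e1 : (N : ℝ) / K ≤ 2 * (N : ℝ) ^ (1 - 1 / μ) := by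
      rw [div_le_iff₀ hK0]
      calc (N : ℝ) = 2 * (N : ℝ) ^ (1 - 1 / μ) * ((N : ℝ) ^ (1 / μ) / 2) := by
            rw [show 2 * (N : ℝ) ^ (1 - 1 / μ) * ((N : ℝ) ^ (1 / μ) / 2) =
              (N : ℝ) ^ (1 - 1 / μ) * (N : ℝ) ^ (1 / μ) by ring, ← Real.rpow_add hN0,
              sub_add_cancel, Real.rpow_one]
        _ ≤ _ := by gcongr
    have e2 : (1 : ℝ) ≤ (N : ℝ) ^ (1 - 1 / μ) := Real.one_le_rpow hNr (by linarith)
    linarith
  have h2 : 1 + Real.log ⌊1 / δ⌋₊ ≤ (N : ℝ) ^ η := by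
    refine le_trans ?_ hlg
    rcases Nat.eq_zero_or_pos ⌊1 / δ⌋₊ with h0 | h0
    · have e3 : 0 ≤ Real.log (1 / δ) := by
        -- `δ ≤ 1` follows from the separation for `k = 1`, or the floor is positive
        by_contra hcon
        rw [not_le] at hcon
        have hd1 : 1 < δ := by
          by_contra h5
          rw [not_lt] at h5
          have : 0 ≤ Real.log (1 / δ) := Real.log_nonneg (by rw [le_div_iff₀ hδ0]; linarith)
          linarith
        have h6 := hα 1 le_rfl (round α)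
        have h7 := abs_sub_round α
        have h8 : c ≤ 1 / 2 := by
          have : c * ((1 : ℕ) : ℝ) ^ (-μ) = c := by simp
          rw [this] at h6
          push_cast at h6
          rw [one_mul] at h6
          linarith
        have h9 : (N : ℝ) ^ (-ν) ≤ 1 := Real.rpow_le_one_of_one_le_of_nonpos hNr (by linarith)
        have : δ ≤ 1 := by
          rw [hδ]
          nlinarith
        linarith
      rw [h0]
      simp only [Nat.cast_zero, Real.log_zero, add_zero]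
      linarith
    · have e4 : Real.log ⌊1 / δ⌋₊ ≤ Real.log (1 / δ) :=
        Real.log_le_log (by exact_mod_cast h0) (Nat.floor_le (by positivity))
      linarith
  have h3 : (((N + 1 : ℕ) : ℝ) + 2 / δ * (1 + Real.log ⌊1 / δ⌋₊)) ≤
      (2 + 2 / c) * (N : ℝ) ^ (ν + η) := by
    have e1 : ((N + 1 : ℕ) : ℝ) ≤ 2 * (N : ℝ) ^ (ν + η) := by
      push_cast
      have : (N : ℝ) ≤ (N : ℝ) ^ (ν + η) := by
        calc (N : ℝ) = (N : ℝ) ^ (1 : ℝ) := (Real.rpow_one _).symm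
          _ ≤ _ := by
            apply Real.rpow_le_rpow_of_exponent_le hNr
            have : 0 ≤ 4 * η * μ := by positivity
            linarith
      linarith
    have e2 : 2 / δ * (1 + Real.log ⌊1 / δ⌋₊) ≤ 2 / c * (N : ℝ) ^ (ν + η) := by
      calc 2 / δ * (1 + Real.log ⌊1 / δ⌋₊) ≤ 2 / δ * (N : ℝ) ^ η := by gcongr
        _ = 2 / c * (N : ℝ) ^ (ν + η) := by
            have e5 : (N : ℝ) ^ (ν + η) = (N : ℝ) ^ ν * (N : ℝ) ^ η := Real.rpow_add hN0 ν η
            have e6 : δ = c * ((N : ℝ) ^ ν)⁻¹ := by rw [hδ, Real.rpow_neg hN0.le]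
            have e7 : (0 : ℝ) < (N : ℝ) ^ ν := by positivity
            rw [e5, e6]
            generalize (N : ℝ) ^ ν = X at *
            generalize (N : ℝ) ^ η = Y at *
            field_simp
    calc _ ≤ 2 * (N : ℝ) ^ (ν + η) + 2 / c * (N : ℝ) ^ (ν + η) := add_le_add e1 e2
      _ = _ := by ring
  have hlog0 : 0 ≤ Real.log ⌊1 / δ⌋₊ := Real.log_natCast_nonneg _
  calc ((N : ℝ) / K + 1) * (2 * (((N + 1 : ℕ) : ℝ) + 2 / δ * (1 + Real.log ⌊1 / δ⌋₊))) ≤
      (3 * (N : ℝ) ^ (1 - 1 / μ)) * (2 * ((2 + 2 / c) * (N : ℝ) ^ (ν + η))) := by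
        apply mul_le_mul h1 _ (by positivity) (by positivity)
        exact mul_le_mul_of_nonneg_left h3 (by norm_num)
    _ = (3 * (2 * (2 + 2 / c))) * ((N : ℝ) ^ (1 - 1 / μ) * (N : ℝ) ^ (ν + η)) := by ring
    _ ≤ (N : ℝ) ^ η * ((N : ℝ) ^ (1 - 1 / μ) * (N : ℝ) ^ (ν + η)) := by gcongr
    _ = (N : ℝ) ^ (2 - 1 / μ + (4 * μ + 3) * η) := by
        rw [← Real.rpow_add hN0, ← Real.rpow_add hN0]
        congr 1
        rw [hν]
        ring

set_option maxHeartbeats 4000000 in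
theorem products (μ ε : ℝ) (hμ : 1 ≤ μ) (hε : 0 < ε) :
    ∃ κ : ℝ, 0 < κ ∧ ∀ c : ℝ, 0 < c → ∃ N₀ : ℕ, ∀ N : ℕ, N₀ ≤ N → ∀ α : ℝ,
      (∀ q : ℕ, 1 ≤ q → ∀ p : ℤ, c * (q : ℝ) ^ (-μ) ≤ |(q : ℝ) * α - p|) →
      ∀ A B : Finset ℕ, (∀ a ∈ A, a ≤ N) → (∀ b ∈ B, b ≤ N) →
      (N : ℝ) ^ (2 - 1 / μ + ε) ≤ A.card * B.card →
      ∀ f g : ℕ → ℝ, (∀ a ∈ A, ∀ b ∈ B, (N : ℝ) ^ ε ≤ f a + α * a * b + g b) →
      ∃ a ∈ A, ∃ b ∈ B, ∀ q : ℕ, q.Prime → κ * ff N < |(q : ℝ) - (f a + α * a * b + g b)| := by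
  have hμ0 : 0 < μ := by linarith
  have hμi : 0 < 1 / μ := by positivity
  have hμ1 : 1 / μ ≤ 1 := by
    rw [div_le_one hμ0]
    exact hμ
  set η : ℝ := min ε 1 / (4 * μ + 13) with hη
  have hmin : 0 < min ε 1 := lt_min hε one_pos
  have hη0 : 0 < η := by positivity
  have hηm : (4 * μ + 13) * η = min ε 1 := by
    rw [hη]
    field_simp
  have hηε : (4 * μ + 13) * η ≤ ε := by rw [hηm]; exact min_le_left _ _
  have hη1 : (4 * μ + 13) * η ≤ 1 := by rw [hηm]; exact min_le_right _ _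
  have hηle : η ≤ ε := by nlinarith
  have hηle1 : η ≤ 1 := by nlinarith
  obtain ⟨κ, hκ, hcrit⟩ := crit_scaled η hη0 hηle1
  refine ⟨κ, hκ, fun c hc => ?_⟩
  have hlim : ∀ s : ℝ, 0 < s → Tendsto (fun N : ℕ => (N : ℝ) ^ s) atTop atTop := fun s hs =>
    (tendsto_rpow_atTop hs).comp tendsto_natCast_atTop_atTop
  apply eventually_atTop.mp
  filter_upwards [tendsto_natCast_atTop_atTop (R := ℝ) |>.eventually hcrit,
    F_bound μ η c hμ hη0 hc, eventually_ge_atTop 1, (hlim η hη0).eventually_ge_atTop 6]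
    with N hcr hF hN1 hN6
  intro α hα A B hA hB hAB f g hpos
  have hNr : (1 : ℝ) ≤ N := by exact_mod_cast hN1
  have hN0 : (0 : ℝ) < N := by linarith
  have hABpos : (0 : ℝ) < A.card * B.card := lt_of_lt_of_le (by positivity) hAB
  have hA0 : A.Nonempty := by
    rw [← card_pos]
    rcases Nat.eq_zero_or_pos A.card with h | h
    · rw [h] at hABpos
      simp at hABpos
    · exact h
  have hB0 : B.Nonempty := by
    rw [← card_pos]
    rcases Nat.eq_zero_or_pos B.card with h | h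
    · rw [h] at hABpos
      simp at hABpos
    · exact h
  obtain ⟨⟨a, b⟩, hab, hq⟩ := hcr (ℕ × ℕ) (A ×ˢ B) (fun i => f i.1 + α * i.1 * i.2 + g i.2)
    (hA0.product hB0) (by
      rintro ⟨a, b⟩ hab
      rw [mem_product] at hab
      exact (Real.rpow_le_rpow_of_exponent_le hNr hηle).trans (hpos a hab.1 b hab.2)) (by
      intro q h hq hqN hh hhN
      have e1 : ∑ i ∈ A ×ˢ B, e ((h : ℝ) / q * (f i.1 + α * i.1 * i.2 + g i.2)) =
          ∑ a ∈ A, ∑ b ∈ B, e ((h : ℝ) / q * f a + ((h : ℝ) / q * α) * a * b + (h : ℝ) / q * g b) := by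
        rw [sum_product]
        refine sum_congr rfl fun a _ => sum_congr rfl fun b _ => ?_
        congr 1
        ring
      rw [e1]
      have hbil := bilinear A B N hA hB (fun a => (h : ℝ) / q * f a) (fun b => (h : ℝ) / q * g b)
        ((h : ℝ) / q * α) _ (hF α hα q h hq hqN hh hhN)
      have hcard : (((A ×ˢ B).card : ℕ) : ℝ) = A.card * B.card := by
        rw [card_product]
        push_cast
        rfl
      rw [hcard]
      set P : ℝ := (A.card : ℝ) * B.card with hP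
      have h2 : (A.card : ℝ) * (B.card * (2 * ((N + 1 : ℕ) +
          (N : ℝ) ^ (2 - 1 / μ + (4 * μ + 3) * η)))) ≤ (P * (N : ℝ) ^ (-(4 * η))) ^ 2 := by
        have e2 : ((N + 1 : ℕ) : ℝ) ≤ 2 * (N : ℝ) ^ (2 - 1 / μ + (4 * μ + 3) * η) := by
          push_cast
          have : (N : ℝ) ≤ (N : ℝ) ^ (2 - 1 / μ + (4 * μ + 3) * η) := by
            calc (N : ℝ) = (N : ℝ) ^ (1 : ℝ) := (Real.rpow_one _).symm
              _ ≤ _ := by
                apply Real.rpow_le_rpow_of_exponent_le hNr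
                have : 0 ≤ (4 * μ + 3) * η := by positivity
                linarith
          linarith
        calc (A.card : ℝ) * (B.card * (2 * ((N + 1 : ℕ) +
            (N : ℝ) ^ (2 - 1 / μ + (4 * μ + 3) * η)))) ≤
            A.card * (B.card * (2 * (2 * (N : ℝ) ^ (2 - 1 / μ + (4 * μ + 3) * η) +
              (N : ℝ) ^ (2 - 1 / μ + (4 * μ + 3) * η)))) := by gcongr
          _ = P * (6 * (N : ℝ) ^ (2 - 1 / μ + (4 * μ + 3) * η)) := by rw [hP]; ring
          _ ≤ P * ((N : ℝ) ^ η * (N : ℝ) ^ (2 - 1 / μ + (4 * μ + 3) * η)) := by gcongr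
          _ ≤ P * (P * (N : ℝ) ^ (-(8 * η))) := by
              apply mul_le_mul_of_nonneg_left _ hABpos.le
              calc (N : ℝ) ^ η * (N : ℝ) ^ (2 - 1 / μ + (4 * μ + 3) * η) =
                  (N : ℝ) ^ (2 - 1 / μ + (4 * μ + 12) * η) * (N : ℝ) ^ (-(8 * η)) := by
                    rw [← Real.rpow_add hN0, ← Real.rpow_add hN0]
                    congr 1
                    ring
                _ ≤ (N : ℝ) ^ (2 - 1 / μ + ε) * (N : ℝ) ^ (-(8 * η)) := by
                    gcongr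
                    nlinarith
                _ ≤ P * (N : ℝ) ^ (-(8 * η)) := by gcongr
          _ = (P * (N : ℝ) ^ (-(4 * η))) ^ 2 := by
              rw [mul_pow, ← Real.rpow_natCast ((N : ℝ) ^ (-(4 * η))), ← Real.rpow_mul hN0.le]
              rw [show -(4 * η) * ((2 : ℕ) : ℝ) = -(8 * η) by push_cast; ring]
              ring
      exact (pow_le_pow_iff_left₀ (norm_nonneg _) (by positivity) (by norm_num)).mp (hbil.trans h2))
  rw [mem_product] at hab
  exact ⟨a, hab.1, b, hab.2, hq⟩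

end Pool.Agent.TH668.Bil
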