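import Pool.Agent.TH668.Bil.Main

set_option autoImplicit false

/-! Multiples of the products of two arbitrary sets. -/

namespace Pool.Agent.TH668.Bil

open Finset Filter
open Pool.Agent.W147.PS (ff ev_pow)

set_option maxHeartbeats 4000000 in
theorem products_plain (μ ε : ℝ) (hμ : 1 ≤ μ) (hε : 0 < ε) :
    ∃ κ : ℝ, 0 < κ ∧ ∀ c α : ℝ, 0 < c → 0 < α →
      (∀ q : ℕ, 1 ≤ q → ∀ p : ℤ, c * (q : ℝ) ^ (-μ) ≤ |(q : ℝ) * α - p|) →
      ∃ N₀ : ℕ, ∀ N : ℕ, N₀ ≤ N →
      ∀ A B : Finset ℕ, (∀ a ∈ A, a ≤ N) → (∀ b ∈ B, b ≤ N) →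
      (N : ℝ) ^ (2 - 1 / μ + ε) ≤ A.card * B.card →
      ∃ a ∈ A, ∃ b ∈ B, ∀ q : ℕ, q.Prime → κ * ff N < |(q : ℝ) - α * a * b| := by
  classical
  obtain ⟨κ, hκ, h⟩ := products μ (ε / 4) hμ (by linarith)
  refine ⟨κ, hκ, fun c α hc hα hdio => ?_⟩
  obtain ⟨N₁, hN₁⟩ := h c hc
  have hμ0 : 0 < μ := by linarith
  have hμ1 : 1 / μ ≤ 1 := by
    rw [div_le_one hμ0]
    exact hμ
  have hlim : ∀ s : ℝ, 0 < s → Tendsto (fun N : ℕ => (N : ℝ) ^ s) atTop atTop := fun s hs =>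
    (tendsto_rpow_atTop hs).comp tendsto_natCast_atTop_atTop
  apply eventually_atTop.mp
  filter_upwards [eventually_ge_atTop N₁, eventually_ge_atTop 1,
    (hlim (ε / 2) (by linarith)).eventually_ge_atTop 8,
    (hlim (ε / 4) (by linarith)).eventually_ge_atTop (1 / α)] with N hN hN1 h8 hαN
  intro A B hA hB hAB
  have hNr : (1 : ℝ) ≤ N := by exact_mod_cast hN1
  have hN0 : (0 : ℝ) < N := by linarith
  set R : ℝ := (N : ℝ) ^ (ε / 2) with hR
  have hR2 : (N : ℝ) ^ ε = R * R := by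
    rw [hR, ← Real.rpow_add hN0]
    ring_nf
  have hcardle : ∀ S : Finset ℕ, (∀ a ∈ S, a ≤ N) → (S.card : ℝ) ≤ 2 * N := by
    intro S hS
    have h1 : S ⊆ range (N + 1) := by
      intro a ha
      rw [mem_range]
      have := hS a ha
      omega
    have h2 := card_le_card h1
    rw [card_range] at h2
    have h3 : S.card ≤ 2 * N := by omega
    exact_mod_cast h3
  have hA2 := hcardle A hA
  have hB2 := hcardle B hB
  have hbig : (N : ℝ) * (R * R) ≤ A.card * B.card := by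
    refine le_trans ?_ hAB
    calc (N : ℝ) * (R * R) = (N : ℝ) ^ (1 + ε) := by
          rw [Real.rpow_add hN0, Real.rpow_one, hR2]
      _ ≤ _ := Real.rpow_le_rpow_of_exponent_le hNr (by linarith)
  have hR0 : 0 < R := by linarith
  have hAlow : R * R / 2 ≤ A.card := by
    have h1 : (N : ℝ) * (R * R) ≤ A.card * (2 * N) := hbig.trans (by gcongr)
    have h2 : (N : ℝ) * (R * R / 2) ≤ N * A.card := by linarith
    exact le_of_mul_le_mul_left h2 hN0
  have hBlow : R * R / 2 ≤ B.card := by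
    have h1 : (N : ℝ) * (R * R) ≤ (2 * N) * B.card := hbig.trans (by gcongr)
    have h2 : (N : ℝ) * (R * R / 2) ≤ N * B.card := by linarith
    exact le_of_mul_le_mul_left h2 hN0
  set A' : Finset ℕ := A.filter (fun a => 1 ≤ a) with hA'
  set B' : Finset ℕ := B.filter (fun b => R ≤ (b : ℝ)) with hB'
  have hA'c : (A.card : ℝ) ≤ A'.card + 1 := by
    have h1 := card_filter_add_card_filter_not (s := A) (fun a => 1 ≤ a)
    have h2 : (A.filter fun a => ¬ 1 ≤ a).card ≤ 1 := by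
      have h3 : (A.filter fun a => ¬ 1 ≤ a) ⊆ {0} := by
        intro a ha
        rw [mem_filter] at ha
        rw [mem_singleton]
        omega
      exact (card_le_card h3).trans (by simp)
    have h4 : A.card ≤ A'.card + 1 := by
      rw [hA']
      omega
    exact_mod_cast h4
  have hB'c : (B.card : ℝ) ≤ B'.card + (R + 1) := by
    have h1 := card_filter_add_card_filter_not (s := B) (fun b => R ≤ (b : ℝ))
    have h2 : (B.filter fun b => ¬ R ≤ ((b : ℕ) : ℝ)).card ≤ ⌈R⌉₊ := by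
      have h3 : (B.filter fun b => ¬ R ≤ ((b : ℕ) : ℝ)) ⊆ range ⌈R⌉₊ := by
        intro b hb
        rw [mem_filter] at hb
        rw [mem_range]
        exact Nat.lt_ceil.mpr (not_le.mp hb.2)
      have := card_le_card h3
      rwa [card_range] at this
    have h4 : B.card ≤ B'.card + ⌈R⌉₊ := by
      rw [hB']
      omega
    have h5 : (B.card : ℝ) ≤ B'.card + (⌈R⌉₊ : ℝ) := by exact_mod_cast h4
    have h6 : (⌈R⌉₊ : ℝ) < R + 1 := Nat.ceil_lt_add_one hR0.le
    linarith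
  have hA'2 : (A.card : ℝ) / 2 ≤ A'.card := by nlinarith
  have hB'2 : (B.card : ℝ) / 2 ≤ B'.card := by nlinarith
  have hAB' : (N : ℝ) ^ (2 - 1 / μ + ε / 4) ≤ A'.card * B'.card := by
    have h4 : 4 ≤ (N : ℝ) ^ (3 * ε / 4) := by
      calc (4 : ℝ) ≤ R := by linarith
        _ ≤ _ := Real.rpow_le_rpow_of_exponent_le hNr (by linarith)
    have h5 : 4 * (N : ℝ) ^ (2 - 1 / μ + ε / 4) ≤ (N : ℝ) ^ (2 - 1 / μ + ε) := by
      calc 4 * (N : ℝ) ^ (2 - 1 / μ + ε / 4) ≤
          (N : ℝ) ^ (3 * ε / 4) * (N : ℝ) ^ (2 - 1 / μ + ε / 4) := by gcongr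
        _ = _ := by
            rw [← Real.rpow_add hN0]
            ring_nf
    have h6 : (A.card : ℝ) / 2 * (B.card / 2) ≤ A'.card * B'.card := by gcongr
    linarith
  obtain ⟨a, ha, b, hb, hq⟩ := hN₁ N hN α hdio A' B'
    (fun a ha => hA a (mem_of_mem_filter a ha)) (fun b hb => hB b (mem_of_mem_filter b hb)) hAB'
    (fun _ => 0) (fun _ => 0) (by
      intro a ha b hb
      rw [hA', mem_filter] at ha
      rw [hB', mem_filter] at hb
      have ha1 : (1 : ℝ) ≤ a := by exact_mod_cast ha.2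
      have hb1 : R ≤ b := hb.2
      have h1 : R = (N : ℝ) ^ (ε / 4) * (N : ℝ) ^ (ε / 4) := by
        rw [hR, ← Real.rpow_add hN0]
        ring_nf
      have h2 : 1 ≤ α * (N : ℝ) ^ (ε / 4) := by
        rw [div_le_iff₀ hα] at hαN
        linarith
      calc (N : ℝ) ^ (ε / 4) = 1 * (N : ℝ) ^ (ε / 4) := (one_mul _).symm
        _ ≤ (α * (N : ℝ) ^ (ε / 4)) * (N : ℝ) ^ (ε / 4) := by gcongr
        _ = α * 1 * R := by rw [h1]; ring
        _ ≤ α * a * b := by gcongr
        _ = 0 + α * a * b + 0 := by ring)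
  refine ⟨a, mem_of_mem_filter a ha, b, mem_of_mem_filter b hb, fun q hqp => ?_⟩
  have := hq q hqp
  simpa using this

end Pool.Agent.TH668.Bil
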