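import Pool.Agent.TH668.Bil.Sumset

set_option autoImplicit false

/-! Powers of sums of elements of two arbitrary dense sets: the main theorem. -/

namespace Pool.Agent.TH668.Bil

open Finset Filter
open Pool.Agent.TH915.PW
open Pool.Agent.TH668.Sm (HyS exp_gen gg gg_pos)
open Pool.Agent.TH668.Met (pair_sum)
open Pool.Agent.H469R2.NK (e norm_e e_add conj_e Cq Cq_pos)
open Pool.Agent.W147.PS (ff ev_pow)

set_option maxHeartbeats 4000000 in
/-- the sum over `a` for two points `b' < b` that are not too close -/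
lemma inner (c : ℝ) (k : ℕ) (hkc : (k : ℝ) < c) (hck : c < k + 1) (ω : ℝ) (hω0 : 0 < ω)
    (hω1 : 8 * (k + 1) * ω ≤ c - k) (hω2 : 8 * (k + 1) * ω ≤ k + 1 - c) :
    ∀ᶠ N : ℕ in atTop, ∀ α θ : ℝ, (N : ℝ) ^ (-(ω / 8)) ≤ α → α ≤ (N : ℝ) ^ (ω / 8) →
      (N : ℝ) ^ (-(ω / 8)) ≤ θ → θ ≤ (N : ℝ) ^ (ω / 8) → ∀ b b' D : ℕ, N < b' → b ≤ 2 * N →
      b' + D ≤ b → (N : ℝ) ^ (1 - ω) ≤ D →
      ‖∑ a ∈ Finset.Ioc N (2 * N), e (θ * (α * ((a : ℝ) + b) ^ c) - θ * (α * ((a : ℝ) + b') ^ c))‖ ≤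
        N * (N : ℝ) ^ (-(ω / 2 ^ (k + 1))) := by
  have hk0 : (0 : ℝ) ≤ k := Nat.cast_nonneg k
  set g : ℝ := gg c (k + 1) with hg
  have hg0 : 0 < g := gg_pos c (k + 1) (by push_cast; linarith)
  set s : ℝ := k + 1 - c with hs
  have hs0 : 0 < s := by linarith
  have hs8 : 8 * ω ≤ s := by nlinarith
  have hf8 : 8 * ω ≤ c - k := by nlinarith
  have hCq := Cq_pos k
  set C₁ : ℝ := (Cq k * 3) ^ ((1 : ℝ) / 2 ^ k) with hC₁
  have hC₁0 : 0 < C₁ := by positivity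
  have hp0 : 0 < ω / 2 ^ (k + 1) := by positivity
  have hlim : ∀ s : ℝ, 0 < s → Tendsto (fun N : ℕ => (N : ℝ) ^ s) atTop atTop := fun s hs =>
    (tendsto_rpow_atTop hs).comp tendsto_natCast_atTop_atTop
  filter_upwards [eventually_ge_atTop 2, (hlim ω hω0).eventually_ge_atTop 2,
    (hlim ω hω0).eventually_ge_atTop (2 * g), (hlim ω hω0).eventually_ge_atTop (50 / (g * s)),
    (hlim _ hp0).eventually_ge_atTop C₁] with N hN2 hNω hNg hNgs hNC
  intro α θ hα1 hα2 hθ1 hθ2 b b' D hb' hb hbb hD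
  have hNr : (2 : ℝ) ≤ N := by exact_mod_cast hN2
  have hN0 : (0 : ℝ) < N := by linarith
  have hN1 : (1 : ℝ) ≤ N := by linarith
  have hα0 : 0 < α := lt_of_lt_of_le (by positivity) hα1
  have hθ0 : 0 < θ := lt_of_lt_of_le (by positivity) hθ1
  have hD0 : (0 : ℝ) < D := lt_of_lt_of_le (by positivity) hD
  set lo : ℝ := α * g * (s * D / (25 * N) * (N : ℝ) ^ (-s)) with hlo
  set hi : ℝ := α * g * (N : ℝ) ^ (-s) with hhi
  have hlo0 : 0 < lo := by positivity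
  have hhi0 : 0 ≤ hi := by positivity
  have hy := hys_diff c k hkc hck N (by omega) b b' D hb' hb hbb α hα0
  rw [← hg, ← hs] at hy
  set H : ℕ := ⌊(N : ℝ) ^ ω⌋₊ with hH
  have hHN : (H : ℝ) ≤ (N : ℝ) ^ ω := Nat.floor_le (by positivity)
  have hNH : (N : ℝ) ^ ω / 2 ≤ H := by
    have := Nat.lt_floor_add_one ((N : ℝ) ^ ω)
    linarith
  have hH0 : (0 : ℝ) < H := by linarith
  have hH1 : 1 ≤ H := by exact_mod_cast hH0
  have hω1' : ω ≤ 1 := by nlinarith
  have hHL : H ≤ N := by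
    have : (H : ℝ) ≤ N := by
      calc (H : ℝ) ≤ (N : ℝ) ^ ω := hHN
        _ ≤ (N : ℝ) ^ (1 : ℝ) := Real.rpow_le_rpow_of_exponent_le hN1 hω1'
        _ = N := Real.rpow_one _
    exact_mod_cast this
  have hHk : (H : ℝ) ^ k ≤ (N : ℝ) ^ (ω * k) := by
    calc (H : ℝ) ^ k ≤ ((N : ℝ) ^ ω) ^ k := pow_le_pow_left₀ (Nat.cast_nonneg _) hHN k
      _ = (N : ℝ) ^ (ω * k) := by rw [← Real.rpow_natCast, ← Real.rpow_mul hN0.le]
  have hcond : 2 * (θ * (hi * (H : ℝ) ^ k)) ≤ 1 := by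
    calc 2 * (θ * (hi * (H : ℝ) ^ k)) ≤
        2 * ((N : ℝ) ^ (ω / 8) * (((N : ℝ) ^ (ω / 8) * g * (N : ℝ) ^ (-s)) * (N : ℝ) ^ (ω * k))) := by
          rw [hhi]
          gcongr
      _ = (2 * g) * ((N : ℝ) ^ (ω / 8) * (N : ℝ) ^ (ω / 8) * (N : ℝ) ^ (-s) * (N : ℝ) ^ (ω * k)) := by
          ring
      _ = (2 * g) * (N : ℝ) ^ (ω / 8 + ω / 8 + -s + ω * k) := by
          rw [Real.rpow_add hN0, Real.rpow_add hN0, Real.rpow_add hN0]
      _ ≤ (N : ℝ) ^ ω * (N : ℝ) ^ (ω / 8 + ω / 8 + -s + ω * k) := by gcongr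
      _ = (N : ℝ) ^ (ω + (ω / 8 + ω / 8 + -s + ω * k)) := by rw [← Real.rpow_add hN0]
      _ ≤ 1 := by
          apply Real.rpow_le_one_of_one_le_of_nonpos hN1
          nlinarith
  have hexp := exp_gen (s := -1) (s' := 1) (Or.inr rfl) (Or.inl rfl) hlo0 hhi0 θ hθ0 N H hy
    (by omega) hH1 hHL hcond
  -- the right side
  have hb1 : Cq k * (1 / H + 2 / (θ * lo) / N) ≤ (Cq k * 3) * (N : ℝ) ^ (-ω) := by
    have e1 : 1 / (H : ℝ) ≤ 2 * (N : ℝ) ^ (-ω) := by
      rw [Real.rpow_neg hN0.le, div_le_iff₀ hH0]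
      have h5 : (0 : ℝ) < (N : ℝ) ^ ω := by positivity
      calc (1 : ℝ) = 2 * ((N : ℝ) ^ ω)⁻¹ * ((N : ℝ) ^ ω / 2) := by field_simp
        _ ≤ _ := by gcongr
    have e2 : 2 / (θ * lo) / N ≤ (N : ℝ) ^ (-ω) := by
      have e3 : g * s / 25 * (N : ℝ) ^ (6 * ω) ≤ θ * lo * N := by
        calc g * s / 25 * (N : ℝ) ^ (6 * ω) ≤
            g * s / 25 * (N : ℝ) ^ (-(ω / 8) + -(ω / 8) + (1 - ω) + -s) := by
              gcongr
              have : c - k = 1 - s := by rw [hs]; ring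
              linarith
          _ = (N : ℝ) ^ (-(ω / 8)) * ((N : ℝ) ^ (-(ω / 8)) * g *
                (s * (N : ℝ) ^ (1 - ω) / 25 * (N : ℝ) ^ (-s))) := by
              rw [Real.rpow_add hN0, Real.rpow_add hN0, Real.rpow_add hN0]
              ring
          _ ≤ θ * (α * g * (s * D / 25 * (N : ℝ) ^ (-s))) := by gcongr
          _ = θ * lo * N := by
              rw [hlo]
              field_simp
      have h6 : 0 < θ * lo * N := by positivity
      rw [div_div, div_le_iff₀ h6]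
      have h7 : (2 : ℝ) = (N : ℝ) ^ (-ω) * (N : ℝ) ^ ω * 2 := by
        rw [← Real.rpow_add hN0, neg_add_cancel, Real.rpow_zero, one_mul]
      have h8 : 2 * (N : ℝ) ^ ω ≤ θ * lo * N := by
        refine le_trans ?_ e3
        have h9 : (N : ℝ) ^ (6 * ω) = (N : ℝ) ^ ω * (N : ℝ) ^ ω * (N : ℝ) ^ (4 * ω) := by
          rw [← Real.rpow_add hN0, ← Real.rpow_add hN0]
          ring_nf
        have h10 : 1 ≤ (N : ℝ) ^ (4 * ω) := Real.one_le_rpow hN1 (by linarith)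
        have hgs : 0 < g * s := by positivity
        rw [div_le_iff₀ hgs] at hNgs
        have h11 : 0 < (N : ℝ) ^ ω := by positivity
        calc 2 * (N : ℝ) ^ ω = 50 / 25 * (N : ℝ) ^ ω * 1 := by ring
          _ ≤ ((N : ℝ) ^ ω * (g * s)) / 25 * (N : ℝ) ^ ω * (N : ℝ) ^ (4 * ω) := by gcongr
          _ = g * s / 25 * (N : ℝ) ^ (6 * ω) := by rw [h9]; ring
      calc (2 : ℝ) = (N : ℝ) ^ (-ω) * (2 * (N : ℝ) ^ ω) := by linarith
        _ ≤ _ := by gcongr
    calc Cq k * (1 / H + 2 / (θ * lo) / N) ≤ Cq k * (2 * (N : ℝ) ^ (-ω) + (N : ℝ) ^ (-ω)) := by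
          gcongr
      _ = _ := by ring
  have hroot := root_le _ _ k (by positivity) (hexp.trans hb1)
  have hr2 : ((Cq k * 3) * (N : ℝ) ^ (-ω)) ^ ((1 : ℝ) / 2 ^ k) =
      C₁ * (N : ℝ) ^ (-(2 * (ω / 2 ^ (k + 1)))) := by
    rw [Real.mul_rpow (by positivity) (by positivity), ← Real.rpow_mul hN0.le, hC₁]
    congr 2
    rw [pow_succ]
    field_simp
  rw [hr2, div_le_iff₀ hN0] at hroot
  -- identify the sums
  have hsum : ∑ a ∈ Finset.Ioc N (2 * N),
      e (θ * (α * ((a : ℝ) + b) ^ c) - θ * (α * ((a : ℝ) + b') ^ c)) =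
      ∑ n ∈ range N, e (θ * (fun (m : ℕ) (t : ℝ) => α * gg c m * ((t + b) ^ (c - m) -
        (t + b') ^ (c - m))) 0 (N + 1 + n)) := by
    have h1 : Finset.Ioc N (2 * N) = (range N).image (fun n => N + 1 + n) := by
      ext a
      rw [Finset.mem_Ioc, mem_image]
      constructor
      · intro h
        exact ⟨a - (N + 1), by rw [mem_range]; omega, by omega⟩
      · rintro ⟨n, hn, rfl⟩
        rw [mem_range] at hn
        omega
    rw [h1, sum_image (fun x _ y _ h => by simpa using h)]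
    refine sum_congr rfl fun n _ => ?_
    congr 1
    have hg00 : gg c 0 = 1 := by simp [gg]
    simp only [hg00, Nat.cast_zero, sub_zero, mul_one]
    push_cast
    ring
  rw [hsum]
  refine hroot.trans ?_
  have h12 : C₁ * (N : ℝ) ^ (-(2 * (ω / 2 ^ (k + 1)))) ≤ (N : ℝ) ^ (-(ω / 2 ^ (k + 1))) := by
    calc C₁ * (N : ℝ) ^ (-(2 * (ω / 2 ^ (k + 1)))) ≤
        (N : ℝ) ^ (ω / 2 ^ (k + 1)) * (N : ℝ) ^ (-(2 * (ω / 2 ^ (k + 1)))) := by gcongr
      _ = _ := by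
          rw [← Real.rpow_add hN0]
          ring_nf
  rw [mul_comm]
  exact mul_le_mul_of_nonneg_left h12 hN0.le

set_option maxHeartbeats 4000000 in
theorem sumsets (c : ℝ) (hc : 0 < c) (hcn : ∀ m : ℕ, c ≠ m) :
    ∃ κ : ℝ, 0 < κ ∧ ∃ δ : ℝ, 0 < δ ∧ δ ≤ c / 4 ∧ ∃ N₀ : ℕ, ∀ N : ℕ, N₀ ≤ N → ∀ α : ℝ,
      (N : ℝ) ^ (-δ) ≤ α → α ≤ (N : ℝ) ^ δ → ∀ A B : Finset ℕ,
      (∀ a ∈ A, N < a ∧ a ≤ 2 * N) → (∀ b ∈ B, N < b ∧ b ≤ 2 * N) →
      (N : ℝ) ^ (2 - δ) ≤ A.card * B.card →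
      ∀ f g : ℕ → ℝ, (∀ a ∈ A, ∀ b ∈ B, (N : ℝ) ^ δ ≤ f a + α * ((a : ℝ) + b) ^ c + g b) →
      ∃ a ∈ A, ∃ b ∈ B, ∀ q : ℕ, q.Prime →
        κ * ff N < |(q : ℝ) - (f a + α * ((a : ℝ) + b) ^ c + g b)| := by
  set k : ℕ := ⌊c⌋₊ with hk
  have hkc : (k : ℝ) < c := lt_of_le_of_ne (Nat.floor_le hc.le) (fun h => hcn k h.symm)
  have hck : c < k + 1 := Nat.lt_floor_add_one c
  have hk0 : (0 : ℝ) ≤ k := Nat.cast_nonneg k
  set ω : ℝ := min (c - k) (k + 1 - c) / (8 * (k + 1)) with hω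
  have hmin : 0 < min (c - k) (k + 1 - c) := lt_min (by linarith) (by linarith)
  have hω0 : 0 < ω := by positivity
  have hω8 : 8 * (k + 1) * ω = min (c - k) (k + 1 - c) := by
    rw [hω]
    field_simp
  have hω1 : 8 * (k + 1) * ω ≤ c - k := by rw [hω8]; exact min_le_left _ _
  have hω2 : 8 * (k + 1) * ω ≤ k + 1 - c := by rw [hω8]; exact min_le_right _ _
  have hωf : 8 * ω ≤ c - k := by nlinarith
  have hωs : 8 * ω ≤ k + 1 - c := by nlinarith
  set δ₁ : ℝ := ω / 2 ^ (k + 1) with hδ₁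
  have hδ₁0 : 0 < δ₁ := by positivity
  have hδ₁ω : δ₁ ≤ ω / 2 := by
    rw [hδ₁]
    apply div_le_div_of_nonneg_left hω0.le (by norm_num)
    rw [pow_succ]
    have : (1 : ℝ) ≤ 2 ^ k := one_le_pow₀ (by norm_num)
    linarith
  set δ₂ : ℝ := δ₁ / 2 with hδ₂
  have hδ₂0 : 0 < δ₂ := by positivity
  set η : ℝ := δ₂ / 16 with hη
  have hη0 : 0 < η := by positivity
  set δ : ℝ := δ₂ / 2 with hδ
  have hδ0 : 0 < δ := by positivity
  obtain ⟨κ, hκ, hcrit⟩ := crit_scaled η hη0 (by linarith)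
  refine ⟨κ, hκ, δ, hδ0, by linarith, ?_⟩
  have hlim : ∀ s : ℝ, 0 < s → Tendsto (fun N : ℕ => (N : ℝ) ^ s) atTop atTop := fun s hs =>
    (tendsto_rpow_atTop hs).comp tendsto_natCast_atTop_atTop
  apply eventually_atTop.mp
  filter_upwards [tendsto_natCast_atTop_atTop (R := ℝ) |>.eventually hcrit,
    inner c k hkc hck ω hω0 hω1 hω2, eventually_ge_atTop 1, (hlim δ₂ hδ₂0).eventually_ge_atTop 5]
    with N hcr hin hN1 hN5
  intro α hα1 hα2 A B hA hB hAB f g hpos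
  have hNr : (1 : ℝ) ≤ N := by exact_mod_cast hN1
  have hN0 : (0 : ℝ) < N := by linarith
  have hABpos : (0 : ℝ) < A.card * B.card := lt_of_lt_of_le (by positivity) hAB
  have hA0 : A.Nonempty := by
    rw [← card_pos]
    rcases Nat.eq_zero_or_pos A.card with h | h
    · rw [h] at hABpos
      simp at hABpos
    · exact h
  have hB0 : B.Nonempty := by
    rw [← card_pos]
    rcases Nat.eq_zero_or_pos B.card with h | h
    · rw [h] at hABpos
      simp at hABpos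
    · exact h
  have hAI : A ⊆ Finset.Ioc N (2 * N) := fun a ha => by
    rw [Finset.mem_Ioc]
    exact hA a ha
  have hBI : B ⊆ Finset.Ioc N (2 * N) := fun b hb => by
    rw [Finset.mem_Ioc]
    exact hB b hb
  have hBN : (B.card : ℝ) ≤ N := by
    have h1 := card_le_card hBI
    rw [Nat.card_Ioc] at h1
    have h2 : B.card ≤ N := by omega
    exact_mod_cast h2
  have hIc : ((Finset.Ioc N (2 * N)).card : ℝ) = N := by
    rw [Nat.card_Ioc]
    congr 1
    omega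
  obtain ⟨⟨a, b⟩, hab, hq⟩ := hcr (ℕ × ℕ) (A ×ˢ B)
    (fun i => f i.1 + α * ((i.1 : ℝ) + i.2) ^ c + g i.2)
    (hA0.product hB0) (by
      rintro ⟨a, b⟩ hab
      rw [mem_product] at hab
      exact (Real.rpow_le_rpow_of_exponent_le hNr (by linarith)).trans (hpos a hab.1 b hab.2)) (by
      intro q h hq hqN hh hhN
      have hq0 : (0 : ℝ) < q := by exact_mod_cast hq
      have hq1 : (1 : ℝ) ≤ q := by exact_mod_cast hq
      have hh1 : (1 : ℝ) ≤ h := by exact_mod_cast hh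
      set θ : ℝ := (h : ℝ) / q with hθ
      have hθ0 : 0 < θ := by positivity
      have hθup : θ ≤ (N : ℝ) ^ (ω / 8) := by
        calc θ ≤ h := div_le_self (by linarith) hq1
          _ ≤ (N : ℝ) ^ (4 * η) := hhN
          _ ≤ _ := Real.rpow_le_rpow_of_exponent_le hNr (by linarith)
      have hθlow : (N : ℝ) ^ (-(ω / 8)) ≤ θ := by
        calc (N : ℝ) ^ (-(ω / 8)) ≤ (N : ℝ) ^ (-η) :=
              Real.rpow_le_rpow_of_exponent_le hNr (by linarith)
          _ = ((N : ℝ) ^ η)⁻¹ := Real.rpow_neg hN0.le _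
          _ ≤ (q : ℝ)⁻¹ := inv_anti₀ hq0 hqN
          _ = 1 / q := by rw [one_div]
          _ ≤ θ := by rw [hθ]; gcongr
      have hα1' : (N : ℝ) ^ (-(ω / 8)) ≤ α :=
        (Real.rpow_le_rpow_of_exponent_le hNr (by linarith)).trans hα1
      have hα2' : α ≤ (N : ℝ) ^ (ω / 8) :=
        hα2.trans (Real.rpow_le_rpow_of_exponent_le hNr (by linarith))
      have e1 : ∑ i ∈ A ×ˢ B, e (θ * (f i.1 + α * ((i.1 : ℝ) + i.2) ^ c + g i.2)) =
          ∑ a ∈ A, ∑ b ∈ B, e (θ * f a + θ * (α * ((a : ℝ) + b) ^ c) + θ * g b) := by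
        rw [sum_product]
        refine sum_congr rfl fun a _ => sum_congr rfl fun b _ => ?_
        congr 1
        ring
      rw [e1]
      have hbil := bil_gen (Finset.Ioc N (2 * N)) A B hAI (fun a => θ * f a) (fun b => θ * g b)
        (fun a b => θ * (α * ((a : ℝ) + b) ^ c))
      set D : ℕ := ⌈(N : ℝ) ^ (1 - ω)⌉₊ with hD
      have hDlow : (N : ℝ) ^ (1 - ω) ≤ D := Nat.le_ceil _
      have hD1 : (1 : ℝ) ≤ (N : ℝ) ^ (1 - ω) := Real.one_le_rpow hNr (by linarith)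
      have hDup : (D : ℝ) ≤ 2 * (N : ℝ) ^ (1 - ω) := by
        have := Nat.ceil_lt_add_one (show (0 : ℝ) ≤ (N : ℝ) ^ (1 - ω) by positivity)
        rw [← hD] at this
        linarith
      have hDge : 1 ≤ D := by
        have : (1 : ℝ) ≤ D := hD1.trans hDlow
        exact_mod_cast this
      have hpair := pair_sum B (fun b b' => ‖∑ a ∈ Finset.Ioc N (2 * N),
        e (θ * (α * ((a : ℝ) + b) ^ c) - θ * (α * ((a : ℝ) + b') ^ c))‖) N
        (N * (N : ℝ) ^ (-δ₁)) D hDge (by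
          intro n m
          refine (norm_sum_le _ _).trans (le_of_eq ?_)
          simp only [norm_e]
          rw [sum_const, nsmul_eq_mul, mul_one, hIc]) (by
          intro n hn m hm hnm
          have hn' := hB n hn
          have hm' := hB m hm
          rcases hnm with hlt | hlt
          · have h1 := hin α θ hα1' hα2' hθlow hθup m n D hn'.1 hm'.2 hlt hDlow
            refine le_trans (le_of_eq ?_) h1
            rw [← Complex.norm_conj, map_sum]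
            congr 1
            refine sum_congr rfl fun a _ => ?_
            rw [conj_e]
            congr 1
            ring
          · exact hin α θ hα1' hα2' hθlow hθup n m D hm'.1 hn'.2 hlt hDlow) (by positivity)
          hN0.le
      have hcard : (((A ×ˢ B).card : ℕ) : ℝ) = A.card * B.card := by
        rw [card_product]
        push_cast
        rfl
      rw [hcard]
      set P : ℝ := (A.card : ℝ) * B.card with hP
      have h2 : ‖∑ a ∈ A, ∑ b ∈ B, e (θ * f a + θ * (α * ((a : ℝ) + b) ^ c) + θ * g b)‖ ^ 2 ≤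
          (P * (N : ℝ) ^ (-(4 * η))) ^ 2 := by
        calc ‖∑ a ∈ A, ∑ b ∈ B, e (θ * f a + θ * (α * ((a : ℝ) + b) ^ c) + θ * g b)‖ ^ 2 ≤
            A.card * ∑ b ∈ B, ∑ b' ∈ B, ‖∑ a ∈ Finset.Ioc N (2 * N),
              e (θ * (α * ((a : ℝ) + b) ^ c) - θ * (α * ((a : ℝ) + b') ^ c))‖ := hbil
          _ ≤ A.card * (B.card * (2 * D) * N + (B.card : ℝ) ^ 2 * (N * (N : ℝ) ^ (-δ₁))) := by
              gcongr
          _ = P * ((2 * D) * N + B.card * (N * (N : ℝ) ^ (-δ₁))) := by rw [hP]; ring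
          _ ≤ P * ((2 * (2 * (N : ℝ) ^ (1 - ω))) * N + N * (N * (N : ℝ) ^ (-δ₁))) := by gcongr
          _ = P * (4 * (N : ℝ) ^ (2 - ω) + (N : ℝ) ^ (2 - δ₁)) := by
              have e3 : (N : ℝ) ^ (2 - ω) = (N : ℝ) ^ (1 - ω) * N := by
                rw [show (2 : ℝ) - ω = (1 - ω) + 1 by ring, Real.rpow_add hN0, Real.rpow_one]
              have e4 : (N : ℝ) ^ (2 - δ₁) = N * (N * (N : ℝ) ^ (-δ₁)) := by
                rw [show (2 : ℝ) - δ₁ = 1 + (1 + -δ₁) by ring, Real.rpow_add hN0,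
                  Real.rpow_add hN0, Real.rpow_one]
              rw [e3, e4]
              ring
          _ ≤ P * (4 * (N : ℝ) ^ (2 - δ₁) + (N : ℝ) ^ (2 - δ₁)) := by
              have h8 : (N : ℝ) ^ (2 - ω) ≤ (N : ℝ) ^ (2 - δ₁) :=
                Real.rpow_le_rpow_of_exponent_le hNr (by linarith)
              exact mul_le_mul_of_nonneg_left (by linarith) hABpos.le
          _ = P * (5 * (N : ℝ) ^ (2 - δ₁)) := by ring
          _ ≤ P * ((N : ℝ) ^ δ₂ * (N : ℝ) ^ (2 - δ₁)) := by gcongr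
          _ = P * ((N : ℝ) ^ (2 - δ) * (N : ℝ) ^ (-(8 * η))) := by
              rw [← Real.rpow_add hN0, ← Real.rpow_add hN0]
              congr 2
              rw [hη, hδ, hδ₂]
              ring
          _ ≤ P * (P * (N : ℝ) ^ (-(8 * η))) := by gcongr
          _ = (P * (N : ℝ) ^ (-(4 * η))) ^ 2 := by
              rw [mul_pow, ← Real.rpow_natCast ((N : ℝ) ^ (-(4 * η))), ← Real.rpow_mul hN0.le]
              rw [show -(4 * η) * ((2 : ℕ) : ℝ) = -(8 * η) by push_cast; ring]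
              ring
      exact (pow_le_pow_iff_left₀ (norm_nonneg _) (by positivity) (by norm_num)).mp h2)
  rw [mem_product] at hab
  exact ⟨a, hab.1, b, hab.2, hq⟩

end Pool.Agent.TH668.Bil
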