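import Pool.Agent.TH668.Sm.Cor
import Pool.Agent.TH668.Met.Basic

set_option autoImplicit false

/-! Powers of sums of elements of two arbitrary dense sets. -/

namespace Pool.Agent.TH668.Bil

open Finset Filter
open Pool.Agent.TH915.PW
open Pool.Agent.TH668.Sm (HyS exp_gen gg gg_pos)
open Pool.Agent.H469R2.NK (e norm_e e_add conj_e Cq Cq_pos)
open Pool.Agent.W147.PS (ff ev_pow)

/-- general bilinear inequality -/
lemma bil_gen (I A B : Finset ℕ) (hAI : A ⊆ I) (f g : ℕ → ℝ) (F : ℕ → ℕ → ℝ) :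
    ‖∑ a ∈ A, ∑ b ∈ B, e (f a + F a b + g b)‖ ^ 2 ≤
      A.card * ∑ b ∈ B, ∑ b' ∈ B, ‖∑ a ∈ I, e (F a b - F a b')‖ := by
  set T : ℕ → ℝ := fun a => ‖∑ b ∈ B, e (g b + F a b)‖ with hT
  have h1 : ‖∑ a ∈ A, ∑ b ∈ B, e (f a + F a b + g b)‖ ≤ ∑ a ∈ A, T a := by
    refine (norm_sum_le _ _).trans (le_of_eq (sum_congr rfl fun a _ => ?_))
    have e1 : ∑ b ∈ B, e (f a + F a b + g b) = e (f a) * ∑ b ∈ B, e (g b + F a b) := by
      rw [mul_sum]
      refine sum_congr rfl fun b _ => ?_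
      rw [← e_add]
      congr 1
      ring
    rw [e1, norm_mul, norm_e, one_mul]
  have h2 : (∑ a ∈ A, T a) ^ 2 ≤ A.card * ∑ a ∈ A, T a ^ 2 := sq_sum_le_card_mul_sum_sq
  have h3 : ∑ a ∈ A, T a ^ 2 ≤ ∑ a ∈ I, T a ^ 2 :=
    sum_le_sum_of_subset_of_nonneg hAI fun a _ _ => by positivity
  have h4 : ∑ a ∈ I, T a ^ 2 ≤ ∑ b ∈ B, ∑ b' ∈ B, ‖∑ a ∈ I, e (F a b - F a b')‖ := by
    have h5 : ((∑ a ∈ I, T a ^ 2 : ℝ) : ℂ) =
        ∑ b ∈ B, ∑ b' ∈ B, e (g b - g b') * ∑ a ∈ I, e (F a b - F a b') := by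
      push_cast
      have h6 : ∀ a : ℕ, (T a : ℂ) ^ 2 =
          ∑ b ∈ B, ∑ b' ∈ B, e (g b - g b') * e (F a b - F a b') := by
        intro a
        simp only [hT]
        rw [← Complex.mul_conj', map_sum, sum_mul_sum]
        refine sum_congr rfl fun b _ => sum_congr rfl fun b' _ => ?_
        rw [conj_e, ← e_add, ← e_add]
        congr 1
        ring
      rw [sum_congr rfl fun a _ => h6 a, sum_comm]
      refine sum_congr rfl fun b _ => ?_
      rw [sum_comm]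
      refine sum_congr rfl fun b' _ => ?_
      rw [mul_sum]
    have h0 : 0 ≤ ∑ a ∈ I, T a ^ 2 := sum_nonneg fun a _ => by positivity
    calc ∑ a ∈ I, T a ^ 2 = ‖((∑ a ∈ I, T a ^ 2 : ℝ) : ℂ)‖ := by
          rw [Complex.norm_real, Real.norm_of_nonneg h0]
      _ ≤ _ := by
          rw [h5]
          refine (norm_sum_le _ _).trans (sum_le_sum fun b _ => (norm_sum_le _ _).trans
            (sum_le_sum fun b' _ => ?_))
          rw [norm_mul, norm_e, one_mul]
  calc ‖∑ a ∈ A, ∑ b ∈ B, e (f a + F a b + g b)‖ ^ 2 ≤ (∑ a ∈ A, T a) ^ 2 :=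
        pow_le_pow_left₀ (norm_nonneg _) h1 2
    _ ≤ A.card * ∑ a ∈ A, T a ^ 2 := h2
    _ ≤ _ := by
        gcongr
        exact h3.trans h4

/-- difference of negative powers -/
lemma rpow_diff (x y s : ℝ) (hx : 0 < x) (hxy : x ≤ y) (hs0 : 0 ≤ s) (hs1 : s ≤ 1) :
    s * (y - x) / y * y ^ (-s) ≤ x ^ (-s) - y ^ (-s) := by
  have hy : 0 < y := by linarith
  have h1 : (x / y) ^ s ≤ 1 + s * (x / y - 1) := by
    have := rpow_one_add_le_one_add_mul_self (s := x / y - 1) (p := s)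
      (by have : 0 ≤ x / y := by positivity
          linarith) hs0 hs1
    rwa [add_sub_cancel] at this
  have h2 : x ^ (-s) * (x / y) ^ s = y ^ (-s) := by
    rw [Real.div_rpow hx.le hy.le, Real.rpow_neg hx.le, Real.rpow_neg hy.le]
    have : 0 < x ^ s := by positivity
    field_simp
  have h3 : y ^ (-s) ≤ x ^ (-s) := Real.rpow_le_rpow_of_nonpos hx hxy (by linarith)
  have h4 : 0 ≤ s * (y - x) / y := by
    have : 0 ≤ y - x := by linarith
    positivity
  have hxs : 0 < x ^ (-s) := by positivity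
  have h5 : s * (y - x) / y = s * (1 - x / y) := by field_simp
  calc s * (y - x) / y * y ^ (-s) ≤ s * (y - x) / y * x ^ (-s) := by gcongr
    _ = x ^ (-s) * (s * (1 - x / y)) := by rw [h5]; ring
    _ ≤ x ^ (-s) * (1 - (x / y) ^ s) := by
        apply mul_le_mul_of_nonneg_left _ hxs.le
        linarith
    _ = x ^ (-s) - y ^ (-s) := by rw [mul_sub, mul_one, h2]

/-- the hypotheses on the phase -/
lemma hys_diff (c : ℝ) (k : ℕ) (hkc : (k : ℝ) < c) (hck : c < k + 1) (N : ℕ) (hN : 1 ≤ N)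
    (b b' : ℕ) (D : ℕ) (hb' : N < b') (hb : b ≤ 2 * N) (hbb : b' + D ≤ b) (α : ℝ) (hα : 0 < α) :
    HyS k N (N + N + 1) (α * gg c (k + 1) * ((k + 1 - c) * D / (25 * N) * (N : ℝ) ^ (-(k + 1 - c))))
      (α * gg c (k + 1) * (N : ℝ) ^ (-(k + 1 - c))) (-1) 1
      (fun m t => α * gg c m * ((t + b) ^ (c - m) - (t + b') ^ (c - m))) := by
  have hNr : (1 : ℝ) ≤ N := by exact_mod_cast hN
  have hN0 : (0 : ℝ) < N := by linarith
  have hb'r : (N : ℝ) ≤ b' := by exact_mod_cast hb'.le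
  have hbr : (b : ℝ) ≤ 2 * N := by exact_mod_cast hb
  have hbbr : (b' : ℝ) + D ≤ b := by exact_mod_cast hbb
  have hD0 : (0 : ℝ) ≤ D := Nat.cast_nonneg D
  have hg0 : 0 < gg c (k + 1) := gg_pos c (k + 1) (by push_cast; linarith)
  set s : ℝ := k + 1 - c with hs
  have hs0 : 0 < s := by linarith
  have hs1 : s < 1 := by linarith
  have hcs : c - ((k + 1 : ℕ) : ℝ) = -s := by rw [hs]; push_cast; ring
  refine ⟨?_, ?_, ?_, ?_⟩
  · intro m _ t ht
    have ht0 : 0 < t := lt_of_lt_of_le hN0 ht.1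
    have h1 : ∀ x : ℕ, HasDerivAt (fun t : ℝ => (t + x) ^ (c - m))
        ((c - m) * (t + x) ^ (c - m - 1)) t := by
      intro x
      have hx0 : (0 : ℝ) ≤ x := Nat.cast_nonneg x
      have h2 : HasDerivAt (fun t : ℝ => t + (x : ℝ)) 1 t := (hasDerivAt_id t).add_const (x : ℝ)
      have h3 := h2.rpow_const (p := c - m) (Or.inl (by positivity))
      have e0 : (c - m) * (t + x) ^ (c - m - 1) = 1 * (c - m) * (t + x) ^ (c - m - 1) := by ring
      rw [e0]
      exact h3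
    have h3 := ((h1 b).sub (h1 b')).const_mul (α * gg c m)
    have e1 : α * gg c (m + 1) * ((t + b) ^ (c - ((m + 1 : ℕ) : ℝ)) -
        (t + b') ^ (c - ((m + 1 : ℕ) : ℝ))) =
        α * gg c m * ((c - m) * (t + b) ^ (c - m - 1) - (c - m) * (t + b') ^ (c - m - 1)) := by
      rw [show gg c (m + 1) = gg c m * (c - m) from by rw [gg, prod_range_succ, ← gg]]
      push_cast
      rw [← sub_sub]
      ring
    show HasDerivAt _ (α * gg c (m + 1) * ((t + b) ^ (c - ((m + 1 : ℕ) : ℝ)) -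
        (t + b') ^ (c - ((m + 1 : ℕ) : ℝ)))) t
    rw [e1]
    exact h3
  · intro t ht
    have ht0 : 0 < t := lt_of_lt_of_le hN0 ht.1
    have hx : 0 < t + b' := by linarith
    have h1 := rpow_diff (t + b') (t + b) s hx (by linarith) hs0.le hs1.le
    have hy5 : t + b ≤ 5 * N := by linarith [ht.2]
    have h2 : (5 : ℝ)⁻¹ * (N : ℝ) ^ (-s) ≤ (t + b) ^ (-s) := by
      calc (5 : ℝ)⁻¹ * (N : ℝ) ^ (-s) ≤ 5 ^ (-s) * (N : ℝ) ^ (-s) := by
            gcongr
            rw [← Real.rpow_neg_one]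
            exact Real.rpow_le_rpow_of_exponent_le (by norm_num) (by linarith)
        _ = (5 * N : ℝ) ^ (-s) := by rw [Real.mul_rpow (by norm_num) hN0.le]
        _ ≤ _ := Real.rpow_le_rpow_of_nonpos (by linarith) hy5 (by linarith)
    have h3 : s * D / (5 * N) ≤ s * ((t + b) - (t + b')) / (t + b) := by
      have : (D : ℝ) ≤ (t + b) - (t + b') := by linarith
      have h0 : 0 < t + b := by linarith
      have h00 : 0 ≤ (t + b) - (t + b') := by linarith
      gcongr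
    show _ ≤ -1 * (α * gg c (k + 1) * ((t + b) ^ (c - ((k + 1 : ℕ) : ℝ)) -
      (t + b') ^ (c - ((k + 1 : ℕ) : ℝ))))
    rw [hcs]
    calc α * gg c (k + 1) * (s * D / (25 * N) * (N : ℝ) ^ (-s)) =
        α * gg c (k + 1) * (s * D / (5 * N) * ((5 : ℝ)⁻¹ * (N : ℝ) ^ (-s))) := by
          field_simp
          ring
      _ ≤ α * gg c (k + 1) * (s * ((t + b) - (t + b')) / (t + b) * (t + b) ^ (-s)) := by
          gcongr
          have h0 : 0 < t + b := by linarith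
          have : 0 ≤ (t + b) - (t + b') := by linarith
          positivity
      _ ≤ α * gg c (k + 1) * ((t + b') ^ (-s) - (t + b) ^ (-s)) := by gcongr
      _ = _ := by ring
  · intro t ht
    have ht0 : 0 < t := lt_of_lt_of_le hN0 ht.1
    have hx : (N : ℝ) ≤ t + b' := by linarith [ht.1]
    show -1 * (α * gg c (k + 1) * ((t + b) ^ (c - ((k + 1 : ℕ) : ℝ)) -
      (t + b') ^ (c - ((k + 1 : ℕ) : ℝ)))) ≤ _
    rw [hcs]
    have h1 : (t + b') ^ (-s) ≤ (N : ℝ) ^ (-s) :=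
      Real.rpow_le_rpow_of_nonpos hN0 hx (by linarith)
    have h2 : 0 ≤ (t + b) ^ (-s) := by
      have : 0 ≤ t + b := by linarith
      positivity
    calc -1 * (α * gg c (k + 1) * ((t + b) ^ (-s) - (t + b') ^ (-s))) =
        α * gg c (k + 1) * ((t + b') ^ (-s) - (t + b) ^ (-s)) := by ring
      _ ≤ α * gg c (k + 1) * (N : ℝ) ^ (-s) := by
          gcongr
          linarith
  · intro t ht
    have ht0 : 0 < t := lt_of_lt_of_le hN0 ht.1
    show 0 ≤ 1 * (α * gg c (k + 2) * ((t + b) ^ (c - ((k + 2 : ℕ) : ℝ)) -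
      (t + b') ^ (c - ((k + 2 : ℕ) : ℝ))))
    have e1 : gg c (k + 2) = gg c (k + 1) * (c - (k + 1 : ℕ)) := by
      rw [gg, prod_range_succ, ← gg]
    have h1 : (t + b) ^ (c - ((k + 2 : ℕ) : ℝ)) ≤ (t + b') ^ (c - ((k + 2 : ℕ) : ℝ)) := by
      apply Real.rpow_le_rpow_of_nonpos (by linarith) (by linarith)
      push_cast
      linarith
    have h2 : 0 ≤ ((k + 1 : ℕ) : ℝ) - c := by push_cast; linarith
    rw [e1]
    have h3 : 0 ≤ (t + b') ^ (c - ((k + 2 : ℕ) : ℝ)) - (t + b) ^ (c - ((k + 2 : ℕ) : ℝ)) := by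
      linarith
    calc (0 : ℝ) ≤ α * (gg c (k + 1) * (((k + 1 : ℕ) : ℝ) - c)) *
        ((t + b') ^ (c - ((k + 2 : ℕ) : ℝ)) - (t + b) ^ (c - ((k + 2 : ℕ) : ℝ))) := by positivity
      _ = _ := by ring

end Pool.Agent.TH668.Bil
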